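import Pool.Agent.Helper93_FL.Public

/-!
# Models of ZFC with standard natural numbers: Menger sets of reals, reaping and dominating families
-/

open Set

namespace Pool.Agent.Men

universe v

open Pool.Agent.FL (IsZFC OmegaStd IsNum Codes IsRealSet realsOf)

/-! ## Sequences of natural numbers and rational intervals -/

/-- The graph of a sequence of natural numbers, as a set of natural numbers. -/
def gr (f : ℕ → ℕ) : Set ℕ := {n | ∃ i, n = Nat.pair i (f i)}

/-- The sequence `f` of natural numbers belongs to the structure `(M, E)`. -/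
def SeqIn {M : Type v} (E : M → M → Prop) (f : ℕ → ℕ) : Prop := ∃ a, Codes E a (gr f)

/-- Enumeration of the open intervals with rational end points. -/
def iv (n : ℕ) : Set ℝ :=
  Ioo ((Denumerable.ofNat (ℚ × ℚ) n).1 : ℝ) ((Denumerable.ofNat (ℚ × ℚ) n).2 : ℝ)

/-- Enumeration of the products of two open intervals with rational end points. -/
def iv2 (n : ℕ) : Set (ℝ × ℝ) := iv n.unpair.1 ×ˢ iv n.unpair.2

/-! ## Menger sets in the structure -/

/-- In the structure, the set of reals `S` is Menger: for every sequence (in the structure) of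
countable covers of `S` by rational intervals, the cover number `n` consisting of the intervals
`iv (c (n, k))`, there is a sequence `h` of natural numbers in the structure such that the
intervals `iv (c (n, k))` with `k ≤ h n` cover `S`. -/
def MengerIn {M : Type v} (E : M → M → Prop) (S : Set ℝ) : Prop :=
  ∀ c : ℕ → ℕ, SeqIn E c → (∀ n, S ⊆ ⋃ k, iv (c (Nat.pair n k))) →
    ∃ h : ℕ → ℕ, SeqIn E h ∧ S ⊆ ⋃ n, ⋃ k ≤ h n, iv (c (Nat.pair n k))

/-- In the structure, the subset `S` of the plane is Menger. -/
def MengerIn2 {M : Type v} (E : M → M → Prop) (S : Set (ℝ × ℝ)) : Prop :=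
  ∀ c : ℕ → ℕ, SeqIn E c → (∀ n, S ⊆ ⋃ k, iv2 (c (Nat.pair n k))) →
    ∃ h : ℕ → ℕ, SeqIn E h ∧ S ⊆ ⋃ n, ⋃ k ≤ h n, iv2 (c (Nat.pair n k))

/-! ## Reaping families and dominating families of the structure -/

/-- `R` is a reaping family in the structure: its elements are infinite sets of natural numbers
and no set of natural numbers of the structure splits all of them. -/
def ReapIn {M : Type v} (E : M → M → Prop) (R : M) : Prop :=
  (∀ x, E x R → ∃ T : Set ℕ, T.Infinite ∧ Codes E x T) ∧
  ∀ S : Set ℕ, (∃ a, Codes E a S) →
    ∃ x T, E x R ∧ Codes E x T ∧ ((T ∩ S).Finite ∨ (T \ S).Finite)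

/-- In the structure, `p` is the (Kuratowski) ordered pair of `x` and `y`. -/
def IsOPair {M : Type v} (E : M → M → Prop) (p x y : M) : Prop :=
  ∀ z, E z p ↔ (∀ w, E w z ↔ w = x) ∨ (∀ w, E w z ↔ w = x ∨ w = y)

/-- In the structure, the dominating number is at most the cardinality of `A`: there is a set `G`
of ordered pairs which is a function on a subset of `A`, and for every sequence `f` of natural
numbers of the structure some value of this function is a sequence eventually above `f`. -/
def DomLe {M : Type v} (E : M → M → Prop) (A : M) : Prop :=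
  ∃ G : M,
    (∀ x y y' p p', E x A → IsOPair E p x y → E p G → IsOPair E p' x y' → E p' G → y = y') ∧
    ∀ f : ℕ → ℕ, SeqIn E f → ∃ x y p, E x A ∧ IsOPair E p x y ∧ E p G ∧
      ∃ f' : ℕ → ℕ, Codes E y (gr f') ∧ ∃ m, ∀ n ≥ m, f n ≤ f' n

/-! ## The final statement -/

/-- There is a model of ZFC with standard natural numbers in which: some reaping family has
cardinality less than the dominating number; every family of Menger sets of reals has a Menger
union or has at least the cardinality of the dominating number; there are Menger sets of reals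
`X`, `Y` such that `X × Y` is not Menger. -/
def FinalStmt : Prop :=
  ∃ (M : Type) (E : M → M → Prop), IsZFC E ∧ OmegaStd E ∧
    (∃ R : M, ReapIn E R ∧ ¬ DomLe E R) ∧
    (∀ F : M, (∀ A, E A F → IsRealSet E A ∧ MengerIn E (realsOf E A)) →
      (∀ U : M, (∀ x, E x U ↔ ∃ A, E A F ∧ E x A) → MengerIn E (realsOf E U)) ∨ DomLe E F) ∧
    ∃ X Y : M, IsRealSet E X ∧ IsRealSet E Y ∧ MengerIn E (realsOf E X) ∧
      MengerIn E (realsOf E Y) ∧ ¬ MengerIn2 E (realsOf E X ×ˢ realsOf E Y)

end Pool.Agent.Men
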