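import Pool.Agent.Helper86_Men.Base
import Pool.Agent.Helper93_MEN.Public

/-!
# Squad MEN: the product of the two iterations; statements at the level of conditions and
measurable functions which are used by the Boolean part
-/

open MeasureTheory Set

namespace Pool.Agent.Men

/-- The index set of the iterations: the successor cardinal of the continuum. -/
abbrev Ix : Type := (Order.succ Cardinal.continuum.{0}).ord.ToType

/-- Points: `z.1` are the Miller reals, `z.2` are the Sacks reals. -/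
abbrev PP : Type := Pt ℕ Ix × Pt (Fin 2) Ix

/-- Conditions of the product. -/
abbrev RC : Type := Cond ℕ Ix × Cond (Fin 2) Ix

/-- The set of points of a condition. -/
def rb (r : RC) : Set PP := r.1.body ×ˢ r.2.body

/-! ### General facts -/

/-- P1: measurable sets are decided. -/
def DecStmt : Prop :=
  ∀ (r : RC) (A : Set PP), MeasurableSet A → ∃ r' ≤ r, rb r' ⊆ A ∨ rb r' ⊆ Aᶜ

/-- P2: countably many dense open sets are met by countable sets. -/
def BRStmt : Prop :=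
  ∀ (r : RC) (D : ℕ → Set RC), (∀ i, ∀ d ∈ D i, ∀ e ≤ d, e ∈ D i) →
    (∀ i, ∀ q ≤ r, ∃ d ∈ D i, d ≤ q) →
    ∃ r' ≤ r, ∀ i, ∃ E : Set RC, E.Countable ∧ E ⊆ D i ∧ rb r' ⊆ ⋃ d ∈ E, rb d

/-- P3: generic point over a countable hull. -/
def GplStmt : Prop :=
  ∀ (W : Type 1) (cd : RC → W), Function.Injective cd →
    ∀ (ops : ℕ → List W → W) (D : ℕ → List W → Set RC),
    (∀ i l, ∀ d ∈ D i l, ∀ e ≤ d, e ∈ D i l) → (∀ i l, ∀ q, ∃ d ∈ D i l, d ≤ q) →
    ∀ (p : RC) (W0 : Set W), W0.Countable →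
    ∃ H : Set W, W0 ⊆ H ∧ H.Countable ∧ cd p ∈ H ∧
      (∀ i l, (∀ x ∈ l, x ∈ H) → ops i l ∈ H) ∧
      ∃ g ∈ rb p, ∀ i l, (∀ x ∈ l, x ∈ H) → ∃ d, cd d ∈ H ∧ d ∈ D i l ∧ g ∈ rb d

/-! ### Reaping and domination -/

/-- P4: the infinite sets of the ground model are reaping. -/
def ReapStmt : Prop :=
  ∀ (r : RC) (S : PP → Set ℕ), Measurable S → ∃ r' ≤ r, ∃ A : Set ℕ, A.Infinite ∧
    ((∀ z ∈ rb r', A ⊆ S z) ∨ ∀ z ∈ rb r', Disjoint A (S z))

/-- P5: a family of at most continuum many names of sequences is not dominating: the Miller real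
at a closure point is not dominated by them. -/
def NDomStmt : Prop :=
  ∀ (ι : Type), Cardinal.mk ι ≤ Cardinal.continuum →
    ∀ rel : ι → RC → (PP → ℕ → ℕ) → Prop,
    (∀ i r r' f, r' ≤ r → rel i r f → rel i r' f) →
    ∀ e : RC, (∀ i, ∀ r ≤ e, ∃ r' ≤ r, ∃ f, Measurable f ∧ rel i r' f) →
    ∃ γ : Ix, ∀ i, ∀ r ≤ e, ∀ m : ℕ, ∃ r' ≤ r, ∃ f, Measurable f ∧ rel i r' f ∧
      ∃ n ≥ m, ∀ z ∈ rb r', f z n < z.1 γ n

/-- P6: the Miller reals are a dominating family. -/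
def DomStmt : Prop :=
  ∀ h : PP → ℕ → ℕ, Measurable h → ∀ r : RC, ∃ r' ≤ r, ∃ b : Ix, ∀ z ∈ rb r', ∀ n,
    h z n ≤ z.1 b n

/-! ### Menger sets -/

/-- The condition `d` forces that the set described by `rel` is covered by the intervals number
`c (n, k)`, for every `n`. -/
def Cov (rel : RC → (PP → ℝ) → Prop) (d : RC) (c : PP → ℕ → ℕ) : Prop :=
  ∀ d' ≤ d, ∀ f : PP → ℝ, Measurable f → rel d' f → ∀ n,
    ¬ ∀ z ∈ rb d', ∀ k, f z ∉ iv (c z (Nat.pair n k))

/-- The condition `d` forces that the set described by `rel` is covered by the intervals number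
`c (n, k)` with `k ≤ h n`. -/
def CovH (rel : RC → (PP → ℝ) → Prop) (d : RC) (c h : PP → ℕ → ℕ) : Prop :=
  ∀ d' ≤ d, ∀ f : PP → ℝ, Measurable f → rel d' f →
    ¬ ∀ z ∈ rb d', ∀ n, ∀ k ≤ h z n, f z ∉ iv (c z (Nat.pair n k))

/-- The condition `e` forces that the set described by `rel` is Menger. -/
def MenRel (rel : RC → (PP → ℝ) → Prop) (e : RC) : Prop :=
  ∀ d ≤ e, ∀ c : PP → ℕ → ℕ, Measurable c → Cov rel d c →
    ∃ d' ≤ d, ∃ h : PP → ℕ → ℕ, Measurable h ∧ CovH rel d' c h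

/-- P7: the union of at most continuum many names of Menger sets is Menger. -/
def AddStmt : Prop :=
  ∀ (ι : Type), Cardinal.mk ι ≤ Cardinal.continuum →
    ∀ rel : ι → RC → (PP → ℝ) → Prop,
    (∀ i r r' f, r' ≤ r → rel i r f → rel i r' f) →
    (∀ i r f f', rel i r f → Measurable f' → (∀ z ∈ rb r, f z = f' z) → rel i r f') →
    ∀ e : RC, (∀ i, MenRel (rel i) e) →
    ∀ c : PP → ℕ → ℕ, Measurable c → (∀ i, Cov (rel i) e c) →
    ∃ h : PP → ℕ → ℕ, Measurable h ∧ ∀ i, CovH (rel i) e c h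

/-! ### The sets `X` and `Y` -/

open Classical in
/-- Parity of the indices. -/
noncomputable def par : Ix → Bool :=
  (wellFounded_lt (α := Ix)).fix fun b ih => if h : ∃ a : Ix, a ⋖ b then !(ih h.choose h.choose_spec.lt)
    else true

/-- Symmetric difference with a finite set. -/
def padd (t : ℕ → Fin 2) (F : Finset ℕ) : ℕ → Fin 2 := fun n => t n + if n ∈ F then 1 else 0

/-- The real number of a binary sequence. -/
noncomputable def th (t : ℕ → Fin 2) : ℝ := ∑' n, (2 * ((t n : ℕ) : ℝ)) / 3 ^ (n + 1)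

/-- Partial sums of `t i + 1`. -/
def As (t : ℕ → ℕ) (n : ℕ) : ℕ := ∑ i ∈ Finset.range (n + 1), (t i + 1)

open Classical in
/-- Characteristic function of the set of partial sums. -/
noncomputable def eg (t : ℕ → ℕ) : ℕ → Fin 2 := fun m => if ∃ n, As t n = m then 1 else 0

/-- Indices of the elements of `X`. -/
abbrev XI : Type := {b : Ix // par b = true} × Finset ℕ

/-- Indices of the elements of `Y`. -/
abbrev YI : Type := {b : Ix // par b = false} × Finset ℕ ⊕ {b : Ix // par b = true} × Finset ℕ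

/-- The elements of `X`. -/
noncomputable def xr (i : XI) (z : PP) : ℝ := th (padd (z.2 i.1) i.2)

/-- The elements of `Y`. -/
noncomputable def yr : YI → PP → ℝ
  | .inl i, z => th (padd (z.2 i.1) i.2)
  | .inr i, z => th (padd (fun n => z.2 i.1 n + eg (z.1 i.1) n) i.2)

/-- The family of names `fr` is Menger. -/
def MenFam {κ : Type} (fr : κ → PP → ℝ) : Prop :=
  ∀ (e : RC) (c : PP → ℕ → ℕ), Measurable c →
    (∀ i, ∀ d ≤ e, ∀ n, ¬ ∀ z ∈ rb d, ∀ k, fr i z ∉ iv (c z (Nat.pair n k))) →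
    ∃ h : PP → ℕ → ℕ, Measurable h ∧
      ∀ i, ∀ d ≤ e, ¬ ∀ z ∈ rb d, ∀ n, ∀ k ≤ h z n, fr i z ∉ iv (c z (Nat.pair n k))

/-- P8: `X` and `Y` are Menger; their elements are measurable. -/
def MenXYStmt : Prop :=
  MenFam xr ∧ MenFam yr ∧ (∀ i, Measurable (xr i)) ∧ ∀ j, Measurable (yr j)

/-- P9: the product `X × Y` is not Menger, as witnessed by a sequence of covers of the ground
model. -/
def NProdStmt : Prop :=
  ∃ cc : ℕ → ℕ,
    (∀ (i : XI) (j : YI) (r : RC) (n : ℕ), ∃ r' ≤ r, ∃ k, ∀ z ∈ rb r',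
      (xr i z, yr j z) ∈ iv2 (cc (Nat.pair n k))) ∧
    ∀ h : PP → ℕ → ℕ, Measurable h → ∀ r : RC, ∃ r' ≤ r, ∃ (i : XI) (j : YI), ∀ z ∈ rb r', ∀ n,
      ∀ k ≤ h z n, (xr i z, yr j z) ∉ iv2 (cc (Nat.pair n k))

end Pool.Agent.Men
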