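import Pool.Agent.Helper93_GEN.Hull
import Pool.Agent.Helper93_MEN.Public

/-!
# Generic interface of the Boolean part

A forcing notion `RC` whose conditions are described by measurable sets `rb r` of points of `PT`,
with families of names of reals and of sequences.  All the statements needed for `FinalStmt`.
-/

open MeasureTheory Set

namespace Pool.Agent.MenG

open Pool.Agent.Men (iv iv2)

/-- The index set: the successor cardinal of the continuum. -/
abbrev Ix : Type := (Order.succ Cardinal.continuum.{0}).ord.ToType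

/-- The data: conditions are described by sets of points; `xr`, `yr` are the elements of `X` and
`Y`, `tt` is a family of names of sequences (for closure points), `dm` is a family of names of
sequences which is dominating. -/
structure Fam (PT RC XI YI K : Type) where
  rb : RC → Set PT
  xr : XI → PT → ℝ
  yr : YI → PT → ℝ
  tt : K → PT → ℕ → ℕ
  dm : Ix → PT → ℕ → ℕ

section
variable {PT RC XI YI K : Type} [MeasurableSpace PT] [Preorder RC] (D : Fam PT RC XI YI K)

/-- P4: the infinite sets of the ground model are reaping. -/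
def GReap : Prop :=
  ∀ (r : RC) (S : PT → Set ℕ), Measurable S → ∃ r' ≤ r, ∃ A : Set ℕ, A.Infinite ∧
    ((∀ z ∈ D.rb r', A ⊆ S z) ∨ ∀ z ∈ D.rb r', Disjoint A (S z))

/-- P5: a family of at most continuum many names of sequences does not dominate some `tt γ`. -/
def GNDom : Prop :=
  ∀ (ι : Type), Cardinal.mk ι ≤ Cardinal.continuum →
    ∀ rel : ι → RC → (PT → ℕ → ℕ) → Prop,
    (∀ i r r' f, r' ≤ r → rel i r f → rel i r' f) →
    ∀ e : RC, (∀ i, ∀ r ≤ e, ∃ r' ≤ r, ∃ f, Measurable f ∧ rel i r' f) →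
    ∃ γ : K, ∀ i, ∀ r ≤ e, ∀ m : ℕ, ∃ r' ≤ r, ∃ f, Measurable f ∧ rel i r' f ∧
      ∃ n ≥ m, ∀ z ∈ D.rb r', f z n < D.tt γ z n

/-- P6: `dm` is dominating. -/
def GDom : Prop :=
  ∀ h : PT → ℕ → ℕ, Measurable h → ∀ r : RC, ∃ r' ≤ r, ∃ b : Ix, ∀ z ∈ D.rb r', ∀ n,
    h z n ≤ D.dm b z n

/-- The condition `d` forces that the set described by `rel` is covered by the intervals number
`c (n, k)`, for every `n`. -/
def Cov (rel : RC → (PT → ℝ) → Prop) (d : RC) (c : PT → ℕ → ℕ) : Prop :=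
  ∀ d' ≤ d, ∀ f : PT → ℝ, Measurable f → rel d' f → ∀ n,
    ¬ ∀ z ∈ D.rb d', ∀ k, f z ∉ iv (c z (Nat.pair n k))

/-- The condition `d` forces that the set described by `rel` is covered by the intervals number
`c (n, k)` with `k ≤ h n`. -/
def CovH (rel : RC → (PT → ℝ) → Prop) (d : RC) (c h : PT → ℕ → ℕ) : Prop :=
  ∀ d' ≤ d, ∀ f : PT → ℝ, Measurable f → rel d' f →
    ¬ ∀ z ∈ D.rb d', ∀ n, ∀ k ≤ h z n, f z ∉ iv (c z (Nat.pair n k))

/-- The condition `e` forces that the set described by `rel` is Menger. -/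
def MenRel (rel : RC → (PT → ℝ) → Prop) (e : RC) : Prop :=
  ∀ d ≤ e, ∀ c : PT → ℕ → ℕ, Measurable c → Cov D rel d c →
    ∃ d' ≤ d, ∃ h : PT → ℕ → ℕ, Measurable h ∧ CovH D rel d' c h

/-- P7: the union of at most continuum many names of Menger sets is Menger. -/
def GAdd : Prop :=
  ∀ (ι : Type), Cardinal.mk ι ≤ Cardinal.continuum →
    ∀ rel : ι → RC → (PT → ℝ) → Prop,
    (∀ i r r' f, r' ≤ r → rel i r f → rel i r' f) →
    (∀ i r f f', rel i r f → Measurable f' → (∀ z ∈ D.rb r, f z = f' z) → rel i r f') →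
    ∀ e : RC, (∀ i, MenRel D (rel i) e) →
    ∀ c : PT → ℕ → ℕ, Measurable c → (∀ i, Cov D (rel i) e c) →
    ∃ h : PT → ℕ → ℕ, Measurable h ∧ ∀ i, CovH D (rel i) e c h

/-- The family of reals `fr` is covered. -/
def CovFam {κ : Type} (fr : κ → PT → ℝ) (d : RC) (c : PT → ℕ → ℕ) : Prop :=
  ∀ i, ∀ d' ≤ d, ∀ n, ¬ ∀ z ∈ D.rb d', ∀ k, fr i z ∉ iv (c z (Nat.pair n k))

/-- The family of reals `fr` is covered by finite parts. -/
def CovFamH {κ : Type} (fr : κ → PT → ℝ) (d : RC) (c h : PT → ℕ → ℕ) : Prop :=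
  ∀ i, ∀ d' ≤ d, ¬ ∀ z ∈ D.rb d', ∀ n, ∀ k ≤ h z n, fr i z ∉ iv (c z (Nat.pair n k))

/-- The family of names `fr` is Menger. -/
def MenFam {κ : Type} (fr : κ → PT → ℝ) : Prop :=
  ∀ (e : RC) (c : PT → ℕ → ℕ), Measurable c → CovFam D fr e c →
    ∃ h : PT → ℕ → ℕ, Measurable h ∧ CovFamH D fr e c h

/-- The pair number `i`, `j` is not covered by the finite parts given by `h`. -/
def UncP (cc : ℕ → ℕ) (d : RC) (h : PT → ℕ → ℕ) (i : XI) (j : YI) : Prop :=
  ∀ z ∈ D.rb d, ∀ n, ∀ k ≤ h z n, (D.xr i z, D.yr j z) ∉ iv2 (cc (Nat.pair n k))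

/-- P9: the product `X × Y` is not Menger, as witnessed by a sequence of covers of the ground
model. -/
def GNProd : Prop :=
  ∃ cc : ℕ → ℕ,
    (∀ (i : XI) (j : YI) (r : RC) (n : ℕ), ∃ r' ≤ r, ∃ k, ∀ z ∈ D.rb r',
      (D.xr i z, D.yr j z) ∈ iv2 (cc (Nat.pair n k))) ∧
    ∀ h : PT → ℕ → ℕ, Measurable h → ∀ r : RC, ∃ r' ≤ r, ∃ (i : XI) (j : YI), UncP D cc r' h i j

/-- All the statements. -/
structure PLevel : Prop where
  nonempty : Nonempty RC
  pf : GF.IsPF D.rb
  dec : GF.Dec D.rb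
  br : GF.BR D.rb
  gpl : GF.Gpl D.rb
  reap : GReap D
  mtt : ∀ γ, Measurable (D.tt γ)
  ndom : GNDom D
  mdm : ∀ b, Measurable (D.dm b)
  dom : GDom D
  add : GAdd D
  mx : ∀ i, Measurable (D.xr i)
  my : ∀ j, Measurable (D.yr j)
  menx : MenFam D D.xr
  meny : MenFam D D.yr
  nprod : GNProd D

end

end Pool.Agent.MenG
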