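import Pool.Agent.Helper93_MEN.G3
import Pool.Agent.Helper9_FL.A1
import Pool.Agent.Helper9_FL.A4
import Pool.Agent.Helper76_FL.A2a
import Pool.Agent.Helper76_FL.A2b
import Pool.Agent.Helper76_FL.A2c
import Pool.Agent.Helper57_FL.A3
import Pool.Agent.Helper93_FL.A5

/-!
# Squad MEN, final part 4: Menger sets; the final theorem
-/

open MeasureTheory Set

namespace Pool.Agent.MenG

open Pool.Agent.FL (BSet beq bmem Fml nn sb om IsZFC IsNum OmegaStd Codes IsDenseEmb A1Stmt A3Stmt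
  ModelStatement cutS IsRealSet realsOf)
open Pool.Agent.GF (Obj opair upair setN codeN IsPF CC GG HullProp ModelProp relOp mem1 mem2 mem3
  memc)
open Pool.Agent.Men (gr iv iv2 SeqIn MengerIn MengerIn2 ReapIn IsOPair DomLe FinalStmt)
open FL.H25 (le_iff_dense le_compl_iff_forall exists_decide)

section
variable {PT RC XI YI K : Type} [MeasurableSpace PT] [Preorder RC] {D : Fam PT RC XI YI K}
variable {B : Type} [CompleteBooleanAlgebra B] {io : RC → B} {p0 : RC} {cc : ℕ → ℕ}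
  {dr : Set ℕ → ℝ}
  {H : Set (O B PT RC XI YI K)} {g : PT} {M : Type} {E : M → M → Prop} {π : BSet B → M}

namespace Sit
variable (s : Sit D io p0 cc dr H g E π)
include s

/-! ### Large families -/

theorem large {F : BSet B} (hF : Obj.nm F ∈ H) {A : Ix → BSet B} (hA : Obj.ex (.fx A) ∈ H)
    {d4 : RC} (hd4 : d4 ∈ CC D.rb H g) (hL : Large io d4 F A) : DomLe E (π F) := by
  have hG : Obj.nm (GLn D io A) ∈ H := s.op' 19 (mem1 hA) rfl (fun _ h => h)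
  have key : ∀ b, Obj.ex (.ix b) ∈ H → Obj.nm (A b) ∈ H ∧ Obj.nm (opF D io (D.dm b)) ∈ H ∧
      Codes E (π (opF D io (D.dm b))) (gr (D.dm b g)) ∧ Obj.nm (opair (A b) (opF D io (D.dm b))) ∈ H ∧
      IsOPair E (π (opair (A b) (opF D io (D.dm b)))) (π (A b)) (π (opF D io (D.dm b))) := by
    intro b hb
    have h1 : Obj.nm (A b) ∈ H := s.op' 18 (mem2 hA hb) rfl (fun _ h => h)
    have h2 : Obj.ex (.ff (D.dm b)) ∈ H := s.op' 10 (mem1 hb) rfl (fun _ h => h)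
    obtain ⟨h3, h4⟩ := s.seqOut h2 (s.ing.pl.mdm b)
    obtain ⟨h5, h6⟩ := s.opairOut h1 h3
    exact ⟨h1, h3, h4, h5, h6⟩
  have mem : ∀ p, E p (π (GLn D io A)) → ∃ b, Obj.ex (.ix b) ∈ H ∧
      p = π (opair (A b) (opF D io (D.dm b))) := by
    intro p hp
    obtain ⟨pn, hpn, rfl⟩ := s.m.surj p
    obtain ⟨d, hd, ht⟩ := s.h.meet' 6 [.nm pn, .ex (.fx A)] (mem2 hpn hA)
    rcases ht with ht | ⟨b0, ht⟩
    · exact (s.absurd' hd ((s.m.memi _ _ hpn hG).1 hp) ht).elim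
    · obtain ⟨y, hy, b, rfl, hb⟩ := s.op 16 (y := .ex (.ix b0)) (mem3 hd.1 hpn hA) ⟨b0, rfl, ht⟩
      exact ⟨b, hy, s.eqName hpn (key b hy).2.2.2.1 hd hb⟩
  refine ⟨π (GLn D io A), ?_, ?_⟩
  · intro x y y' p p' _ hp hpG hp' hpG'
    obtain ⟨b, hb, rfl⟩ := mem p hpG
    obtain ⟨b', hb', rfl⟩ := mem p' hpG'
    obtain ⟨k1, k2, k3, k4, k5⟩ := key b hb
    obtain ⟨k1', k2', k3', k4', k5'⟩ := key b' hb'
    obtain ⟨e1, e2⟩ := oPair_inj s.m.zfc hp k5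
    obtain ⟨e3, e4⟩ := oPair_inj s.m.zfc hp' k5'
    by_cases hbb : b = b'
    · subst hbb
      rw [e2, e4]
    · exfalso
      have h1 : beq (A b) (A b') ∈ GG D.rb io H g := (s.m.eqi _ _ k1 k1').1 (by rw [← e1, ← e3])
      exact s.absurd' hd4 h1 (hL.2 b b' hbb)
  · intro f0 hf0
    obtain ⟨h, hh, hhm, hhg⟩ := s.seqIn hf0
    obtain ⟨d, hd, ht⟩ := s.h.meet' 3 [.ex (.ff h)] (mem1 hh)
    obtain ⟨b0, hb0⟩ := ht hhm
    obtain ⟨y, hy, b, rfl, hb⟩ := s.op 12 (y := .ex (.ix b0)) (mem2 hd.1 hh) ⟨b0, rfl, hb0⟩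
    obtain ⟨k1, k2, k3, k4, k5⟩ := key b hy
    refine ⟨π (A b), π (opF D io (D.dm b)), π (opair (A b) (opF D io (D.dm b))), ?_, k5, ?_, D.dm b g, k3,
      0, ?_⟩
    · exact (s.memName k1 hF).2 ⟨d4, hd4, hL.1 b⟩
    · exact s.mem_setN (A := fun b : Ix => opair (A b) (opF D io (D.dm b))) (i := b) hd k4 hG
    · intro n _
      have := hb g hd.2 n
      rwa [hhg] at this

/-! ### Small families -/

/-- A real of the model in `a ∈ F` which is not covered. -/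
theorem unc_false {F a : BSet B} (ha : Obj.nm a ∈ H) {c : PT → ℕ → ℕ}
    {d : RC} (hd : d ∈ CC D.rb H g) {f : PT → ℝ} {n : ℕ}
    (hf : Obj.ex (.rf f) ∈ H) (hu : Unc D io F a c d f n)
    (hcov : realsOf E (π a) ⊆ ⋃ k, iv (c g (Nat.pair n k))) : False := by
  obtain ⟨hu1, hu2, hu3⟩ := hu
  have h1 := hcov (s.mem_reals ha hf hu1 hd hu2.2)
  rw [Set.mem_iUnion] at h1
  obtain ⟨k, hk⟩ := h1
  exact hu3 g hd.2 k hk

theorem uncH_false {F a : BSet B} (ha : Obj.nm a ∈ H) {c h : PT → ℕ → ℕ}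
    {d : RC} (hd : d ∈ CC D.rb H g) {f : PT → ℝ}
    (hf : Obj.ex (.rf f) ∈ H) (hu : UncH D io F a c h d f)
    (hcov : realsOf E (π a) ⊆ ⋃ n, ⋃ k ≤ h g n, iv (c g (Nat.pair n k))) : False := by
  obtain ⟨hu1, hu2, hu3⟩ := hu
  have h1 := hcov (s.mem_reals ha hf hu1 hd hu2.2)
  simp only [Set.mem_iUnion] at h1
  obtain ⟨n, k, hk, h2⟩ := h1
  exact hu3 g hd.2 n k hk h2

/-- From a condition forcing a cover to a cover in the model. -/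
theorem cov_of_Cov {F a : BSet B} (hF : Obj.nm F ∈ H) (ha : Obj.nm a ∈ H)
    (haF : E (π a) (π F)) {c : PT → ℕ → ℕ} (hc : Obj.ex (.ff c) ∈ H) (hcm : Measurable c)
    {d : RC} (hd : d ∈ CC D.rb H g) (hcov : Cov D (relF D io F a) d c) (n : ℕ) :
    realsOf E (π a) ⊆ ⋃ k, iv (c g (Nat.pair n k)) := by
  intro r hr
  by_contra hcon
  obtain ⟨f, hf, hfm, hfg, d1, hd1, h1⟩ := s.reals_mem ha hr
  obtain ⟨d2, hd2, h2⟩ := (s.memName ha hF).1 haF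
  have hms : Obj.ms {z | ∀ k, f z ∉ iv (c z (Nat.pair n k))} ∈ H :=
    s.op' 26 (mem3 hc hf (s.h.nt_mem n)) rfl (fun _ h => h)
  obtain ⟨d3, hd3, h3⟩ := s.h.eval (measurableSet_unc hfm hcm n) hms (by
    intro k hk
    apply hcon
    rw [Set.mem_iUnion]
    rw [hfg] at hk
    exact ⟨k, hk⟩)
  obtain ⟨e1, he1, k1, k2⟩ := s.h.cpt hd hd1
  obtain ⟨e2, he2, k3, k4⟩ := s.h.cpt hd2 hd3
  obtain ⟨e, he, k5, k6⟩ := s.h.cpt he1 he2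
  have hio := s.ing.hio
  exact hcov e (k5.trans k1) f hfm ⟨(hio.mono _ _ (k6.trans k3)).trans h2,
    (hio.mono _ _ (k5.trans k2)).trans h1⟩ n (fun z hz => h3 (s.ing.pl.pf.mono (k6.trans k4) hz))

theorem covH_of_CovH {F a : BSet B} (hF : Obj.nm F ∈ H) (ha : Obj.nm a ∈ H)
    (haF : E (π a) (π F)) {c h : PT → ℕ → ℕ} (hc : Obj.ex (.ff c) ∈ H) (hcm : Measurable c)
    (hh : Obj.ex (.ff h) ∈ H) (hhm : Measurable h)
    {d : RC} (hd : d ∈ CC D.rb H g) (hcov : CovH D (relF D io F a) d c h) :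
    realsOf E (π a) ⊆ ⋃ n, ⋃ k ≤ h g n, iv (c g (Nat.pair n k)) := by
  intro r hr
  by_contra hcon
  obtain ⟨f, hf, hfm, hfg, d1, hd1, h1⟩ := s.reals_mem ha hr
  obtain ⟨d2, hd2, h2⟩ := (s.memName ha hF).1 haF
  have hms : Obj.ms {z | ∀ n, ∀ k ≤ h z n, f z ∉ iv (c z (Nat.pair n k))} ∈ H :=
    s.op' 27 (mem3 hc hf hh) rfl (fun _ h => h)
  obtain ⟨d3, hd3, h3⟩ := s.h.eval (measurableSet_uncH hfm hcm hhm) hms (by
    intro n k hk hmem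
    apply hcon
    simp only [Set.mem_iUnion]
    rw [hfg] at hmem
    exact ⟨n, k, hk, hmem⟩)
  obtain ⟨e1, he1, k1, k2⟩ := s.h.cpt hd hd1
  obtain ⟨e2, he2, k3, k4⟩ := s.h.cpt hd2 hd3
  obtain ⟨e, he, k5, k6⟩ := s.h.cpt he1 he2
  have hio := s.ing.hio
  exact hcov e (k5.trans k1) f hfm ⟨(hio.mono _ _ (k6.trans k3)).trans h2,
    (hio.mono _ _ (k5.trans k2)).trans h1⟩ (fun z hz => h3 (s.ing.pl.pf.mono (k6.trans k4) hz))

theorem small {F : BSet B} (hF : Obj.nm F ∈ H)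
    (hMen : ∀ A, E A (π F) → IsRealSet E A ∧ MengerIn E (realsOf E A))
    {A : Set ℕ → BSet B} (hA : Obj.ex (.fa A) ∈ H) {d4 : RC} (hd4 : d4 ∈ CC D.rb H g)
    (hS : Small io d4 F A) (U : M) (hU : ∀ x, E x U ↔ ∃ A, E A (π F) ∧ E x A) :
    MengerIn E (realsOf E U) := by
  have hio := s.ing.hio
  intro c0 hc0 hcov0
  obtain ⟨c, hc, hcm, hcg⟩ := s.seqIn hc0
  subst hcg
  have hsubU : ∀ a : M, E a (π F) → realsOf E a ⊆ realsOf E U := by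
    rintro a haF r ⟨x, hx, hxr⟩
    exact ⟨x, (hU x).2 ⟨a, haF, hx⟩, hxr⟩
  have hAi : ∀ i, Obj.ex (.gs i) ∈ H → Obj.nm (A i) ∈ H := fun i hi =>
    s.op' 17 (mem2 hA hi) rfl (fun _ h => h)
  -- the cover
  have hc7 : ∃ d7 ∈ CC D.rb H g, ∀ i, Cov D (relF D io F (A i)) d7 c := by
    obtain ⟨d, hd, ht⟩ := s.h.meet' 7 [.nm F, .ex (.fa A), .ex (.ff c)] (mem3 hF hA hc)
    rcases ht with ht | ⟨i0, f0, n0, ht⟩
    · exact ⟨d, hd, ht⟩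
    · exfalso
      obtain ⟨y, hy, i, rfl, f1, n1, hu1⟩ := s.op 20 (y := .ex (.gs i0))
        (memc hd.1 (mem3 hF hA hc)) ⟨i0, rfl, f0, n0, ht⟩
      obtain ⟨y, hyf, f, rfl, n, hu⟩ := s.op 21 (y := .ex (.rf f1))
        (memc hd.1 (memc hF (mem3 hA hc hy))) ⟨f1, rfl, n1, hu1⟩
      have haF : E (π (A i)) (π F) := (s.memName (hAi i hy) hF).2 ⟨d, hd, hu.2.1.1⟩
      exact s.unc_false (hAi i hy) hd hyf hu ((hsubU _ haF).trans (hcov0 n))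
  -- all members are Menger
  have hc8 : ∃ d8 ∈ CC D.rb H g, ∀ i, MenRel D (relF D io F (A i)) d8 := by
    obtain ⟨d, hd, ht⟩ := s.h.meet' 8 [.nm F, .ex (.fa A)] (mem2 hF hA)
    rcases ht with ht | ⟨i0, c1, ht⟩
    · exact ⟨d, hd, ht⟩
    · exfalso
      obtain ⟨y, hy, i, rfl, c2, hn1⟩ := s.op 22 (y := .ex (.gs i0))
        (memc hd.1 (mem2 hF hA)) ⟨i0, rfl, c1, ht⟩
      obtain ⟨y, hyc, c', rfl, hc'm, hc'1, hc'2⟩ := s.op 23 (y := .ex (.ff c2))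
        (memc hd.1 (mem3 hF hA hy)) ⟨c2, rfl, hn1⟩
      have ha := hAi i hy
      -- A i belongs to F
      have haF : E (π (A i)) (π F) := by
        refine (s.memName ha hF).2 ⟨d, hd, ?_⟩
        rw [le_iff_dense hio]
        intro q hq
        have h1 := hc'2 q hq 0 measurable_const
        unfold CovH at h1
        push Not at h1
        obtain ⟨q', hq', f, _, hrel, _⟩ := h1
        exact ⟨q', hq', hrel.1⟩
      obtain ⟨h0, hh0, hcovh⟩ := (hMen _ haF).2 (c' g) (s.seqIn' hyc hc'm)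
        (fun n => s.cov_of_Cov hF ha haF hyc hc'm hd hc'1 n)
      obtain ⟨h, hh, hhm, hhg⟩ := s.seqIn hh0
      subst hhg
      obtain ⟨d9, hd9, ht9⟩ := s.h.meet' 9
        [.nm F, .ex (.fa A), .ex (.gs i), .ex (.ff c'), .ex (.ff h)]
        (memc hF (memc hA (mem3 hy hyc hh)))
      rcases ht9 with ht9 | ⟨f0, ht9⟩
      · obtain ⟨e, _, k1, k2⟩ := s.h.cpt hd hd9
        have h1 := hc'2 e k1 h hhm
        unfold CovH at h1
        push Not at h1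
        obtain ⟨q', hq', f, hfm, hrel, hno⟩ := h1
        exact ht9 q' (hq'.trans k2) f ⟨hfm, hrel, hno⟩
      · obtain ⟨y, hyf, f, rfl, hu⟩ := s.op 24 (y := .ex (.rf f0))
          (memc hd9.1 (memc hF (memc hA (mem3 hy hyc hh)))) ⟨f0, rfl, ht9⟩
        exact s.uncH_false ha hd9 hyf hu hcovh
  obtain ⟨d7, hd7, hcov7⟩ := hc7
  obtain ⟨d8, hd8, hmen8⟩ := hc8
  obtain ⟨e, he, k7, k8⟩ := s.h.cpt hd7 hd8
  have hadd : ∃ h : PT → ℕ → ℕ, Measurable h ∧ ∀ i, CovH D (relF D io F (A i)) e c h := by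
    refine s.ing.pl.add (Set ℕ) (by simp) (fun i => relF D io F (A i))
      (fun i r r' f hr h => relF_mono hio hr h) ?_ e
      (fun i d hd => hmen8 i d (hd.trans k8)) c hcm
      (fun i d hd => hcov7 i d (hd.trans k7))
    intro i r f f' hrel _ hff
    refine ⟨hrel.1, ?_⟩
    have h1 : io r ≤ beq (opR D io f) (opR D io f') :=
      GF.codeEq s.ing.a1 s.ing.pl.pf hio r _ _ (fun z hz => by rw [hff z hz])
    exact (le_inf h1 hrel.2).trans ((s.ing.a1 B).2.2.2.1 _ _ _)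
  obtain ⟨h0, hh0⟩ := hadd
  obtain ⟨y, hy, h, rfl, hhm, hcovH⟩ := s.op 25 (y := .ex (.ff h0))
    (memc he.1 (mem3 hF hA hc)) ⟨h0, rfl, hh0⟩
  refine ⟨h g, s.seqIn' hy hhm, ?_⟩
  rintro r ⟨x, hx, hxr⟩
  obtain ⟨a, haF, hxa⟩ := (hU x).1 hx
  obtain ⟨an, han, rfl⟩ := s.m.surj a
  have h1 : (⨆ i, beq an (A i)) ∈ GG D.rb io H g := by
    obtain ⟨d1, hd1, h1⟩ := (s.memName han hF).1 haF
    obtain ⟨d2, hd2, h2, h3⟩ := s.h.cpt hd1 hd4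
    refine ⟨d2, hd2, ?_⟩
    have h4 : io d2 ≤ bmem an F ⇨ ⨆ i, beq an (A i) :=
      ((hio.mono _ _ h3).trans hS).trans (iInf_le _ an)
    have h5 : io d2 ≤ (bmem an F ⇨ ⨆ i, beq an (A i)) ⊓ bmem an F :=
      le_inf h4 ((hio.mono _ _ h2).trans h1)
    exact h5.trans (himp_inf_le)
  obtain ⟨d5, hd5, ht5⟩ := s.h.meet' 5 [.nm an, .ex (.fa A)] (mem2 han hA)
  rcases ht5 with ht5 | ⟨i0, ht5⟩
  · exact (s.absurd' hd5 h1 ht5).elim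
  · obtain ⟨y, hyi, i, rfl, hi⟩ := s.op 15 (y := .ex (.gs i0)) (mem3 hd5.1 han hA) ⟨i0, rfl, ht5⟩
    have heq : π an = π (A i) := s.eqName han (hAi i hyi) hd5 hi
    rw [heq] at haF hxa
    exact s.covH_of_CovH hF (hAi i hyi) haF hc hcm hy hhm he (hcovH i) ⟨x, hxa, hxr⟩

theorem addM (F : M) (hMen : ∀ A, E A F → IsRealSet E A ∧ MengerIn E (realsOf E A)) :
    (∀ U : M, (∀ x, E x U ↔ ∃ A, E A F ∧ E x A) → MengerIn E (realsOf E U)) ∨ DomLe E F := by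
  obtain ⟨Fn, hFn, rfl⟩ := s.m.surj F
  obtain ⟨d4, hd4, ht⟩ := s.h.meet' 4 [.nm Fn] (mem1 hFn)
  rcases ht with ⟨A0, ht⟩ | ⟨A0, ht⟩
  · left
    obtain ⟨y, hy, A, rfl, hA⟩ := s.op 13 (y := .ex (.fa A0)) (mem2 hd4.1 hFn) ⟨A0, rfl, ht⟩
    exact fun U hU => s.small hFn hMen hy hd4 hA U hU
  · right
    obtain ⟨y, hy, A, rfl, hA⟩ := s.op 14 (y := .ex (.fx A0)) (mem2 hd4.1 hFn) ⟨A0, rfl, ht⟩
    exact s.large hFn hy hd4 hA

/-! ### The sets `X` and `Y` -/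

theorem mem_Xn (hX : Obj.nm (Xn D io) ∈ H) {x : M} (hx : E x (π (Xn D io))) :
    ∃ i, Obj.ex (.xi i) ∈ H ∧ Obj.ex (.rf (D.xr i)) ∈ H ∧ x = π (opR D io (D.xr i)) := by
  obtain ⟨a, ha, rfl⟩ := s.m.surj x
  obtain ⟨d, hd, ht⟩ := s.h.meet' 10 [.nm a] (mem1 ha)
  rcases ht with ht | ⟨i0, ht⟩
  · exact (s.absurd' hd ((s.m.memi _ _ ha hX).1 hx) ht).elim
  · obtain ⟨y, hy, i, rfl, hle⟩ := s.op 28 (y := .ex (.xi i0)) (mem2 hd.1 ha) ⟨i0, rfl, ht⟩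
    have hr : Obj.ex (.rf (D.xr i)) ∈ H := s.op' 30 (mem1 hy) rfl (fun _ h => h)
    exact ⟨i, hy, hr, s.eqName ha (s.realOut hr (s.ing.pl.mx i)).1 hd hle⟩

theorem mem_Yn (hY : Obj.nm (Yn D io) ∈ H) {x : M} (hx : E x (π (Yn D io))) :
    ∃ j, Obj.ex (.yi j) ∈ H ∧ Obj.ex (.rf (D.yr j)) ∈ H ∧ x = π (opR D io (D.yr j)) := by
  obtain ⟨a, ha, rfl⟩ := s.m.surj x
  obtain ⟨d, hd, ht⟩ := s.h.meet' 11 [.nm a] (mem1 ha)
  rcases ht with ht | ⟨i0, ht⟩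
  · exact (s.absurd' hd ((s.m.memi _ _ ha hY).1 hx) ht).elim
  · obtain ⟨y, hy, i, rfl, hle⟩ := s.op 29 (y := .ex (.yi i0)) (mem2 hd.1 ha) ⟨i0, rfl, ht⟩
    have hr : Obj.ex (.rf (D.yr i)) ∈ H := s.op' 31 (mem1 hy) rfl (fun _ h => h)
    exact ⟨i, hy, hr, s.eqName ha (s.realOut hr (s.ing.pl.my i)).1 hd hle⟩

theorem realsX (hX : Obj.nm (Xn D io) ∈ H) (r : ℝ) : r ∈ realsOf E (π (Xn D io)) ↔
    ∃ i, Obj.ex (.xi i) ∈ H ∧ D.xr i g = r := by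
  constructor
  · rintro ⟨x, hx, hc⟩
    obtain ⟨i, hi, hr, rfl⟩ := s.mem_Xn hX hx
    refine ⟨i, hi, ?_⟩
    have h2 := (s.realOut hr (s.ing.pl.mx i)).2
    have h3 := s.m.codes_unique h2 hc
    rw [← s.ing.dr2 (D.xr i g), h3, s.ing.dr2]
  · rintro ⟨i, hi, rfl⟩
    have hr : Obj.ex (.rf (D.xr i)) ∈ H := s.op' 30 (mem1 hi) rfl (fun _ h => h)
    obtain ⟨h1, h2⟩ := s.realOut hr (s.ing.pl.mx i)
    obtain ⟨d, hd⟩ := s.exists_cc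
    exact ⟨_, s.mem_setN (A := fun i : XI => opR D io (D.xr i)) (i := i) hd h1 hX, h2⟩

theorem realsY (hY : Obj.nm (Yn D io) ∈ H) (r : ℝ) : r ∈ realsOf E (π (Yn D io)) ↔
    ∃ j, Obj.ex (.yi j) ∈ H ∧ D.yr j g = r := by
  constructor
  · rintro ⟨x, hx, hc⟩
    obtain ⟨i, hi, hr, rfl⟩ := s.mem_Yn hY hx
    refine ⟨i, hi, ?_⟩
    have h2 := (s.realOut hr (s.ing.pl.my i)).2
    have h3 := s.m.codes_unique h2 hc
    rw [← s.ing.dr2 (D.yr i g), h3, s.ing.dr2]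
  · rintro ⟨i, hi, rfl⟩
    have hr : Obj.ex (.rf (D.yr i)) ∈ H := s.op' 31 (mem1 hi) rfl (fun _ h => h)
    obtain ⟨h1, h2⟩ := s.realOut hr (s.ing.pl.my i)
    obtain ⟨d, hd⟩ := s.exists_cc
    exact ⟨_, s.mem_setN (A := fun i : YI => opR D io (D.yr i)) (i := i) hd h1 hY, h2⟩

theorem mengerX (hX : Obj.nm (Xn D io) ∈ H) : MengerIn E (realsOf E (π (Xn D io))) := by
  intro c0 hc0 hcov0
  obtain ⟨c, hc, hcm, hcg⟩ := s.seqIn hc0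
  subst hcg
  obtain ⟨d, hd, ht⟩ := s.h.meet' 12 [.ex (.ff c)] (mem1 hc)
  rcases ht with ht | ⟨i0, n0, ht⟩
  swap
  · exfalso
    obtain ⟨y, hy, i, rfl, n, hn⟩ := s.op 32 (y := .ex (.xi i0)) (mem2 hd.1 hc)
      ⟨i0, rfl, n0, ht⟩
    have h1 := hcov0 n ((s.realsX hX _).2 ⟨i, hy, rfl⟩)
    rw [Set.mem_iUnion] at h1
    obtain ⟨k, hk⟩ := h1
    exact hn g hd.2 k hk
  obtain ⟨h0, hh0⟩ := s.ing.pl.menx d c hcm ht
  obtain ⟨y, hy, h, rfl, hhm, hcovH⟩ := s.op 34 (y := .ex (.ff h0)) (mem2 hd.1 hc) ⟨h0, rfl, hh0⟩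
  refine ⟨h g, s.seqIn' hy hhm, ?_⟩
  intro r hr
  obtain ⟨i, hi, rfl⟩ := (s.realsX hX r).1 hr
  have hrf : Obj.ex (.rf (D.xr i)) ∈ H := s.op' 30 (mem1 hi) rfl (fun _ h => h)
  by_contra hcon
  have hms : Obj.ms {z | ∀ n, ∀ k ≤ h z n, D.xr i z ∉ iv (c z (Nat.pair n k))} ∈ H :=
    s.op' 27 (mem3 hc hrf hy) rfl (fun _ h => h)
  obtain ⟨d3, hd3, h3⟩ := s.h.eval (measurableSet_uncH (s.ing.pl.mx i) hcm hhm) hms (by
    intro n k hk hmem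
    apply hcon
    simp only [Set.mem_iUnion]
    exact ⟨n, k, hk, hmem⟩)
  obtain ⟨e, he, k1, k2⟩ := s.h.cpt hd hd3
  exact hcovH i e k1 (fun z hz => h3 (s.ing.pl.pf.mono k2 hz))

theorem mengerY (hY : Obj.nm (Yn D io) ∈ H) : MengerIn E (realsOf E (π (Yn D io))) := by
  intro c0 hc0 hcov0
  obtain ⟨c, hc, hcm, hcg⟩ := s.seqIn hc0
  subst hcg
  obtain ⟨d, hd, ht⟩ := s.h.meet' 13 [.ex (.ff c)] (mem1 hc)
  rcases ht with ht | ⟨i0, n0, ht⟩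
  swap
  · exfalso
    obtain ⟨y, hy, i, rfl, n, hn⟩ := s.op 33 (y := .ex (.yi i0)) (mem2 hd.1 hc)
      ⟨i0, rfl, n0, ht⟩
    have h1 := hcov0 n ((s.realsY hY _).2 ⟨i, hy, rfl⟩)
    rw [Set.mem_iUnion] at h1
    obtain ⟨k, hk⟩ := h1
    exact hn g hd.2 k hk
  obtain ⟨h0, hh0⟩ := s.ing.pl.meny d c hcm ht
  obtain ⟨y, hy, h, rfl, hhm, hcovH⟩ := s.op 35 (y := .ex (.ff h0)) (mem2 hd.1 hc) ⟨h0, rfl, hh0⟩
  refine ⟨h g, s.seqIn' hy hhm, ?_⟩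
  intro r hr
  obtain ⟨i, hi, rfl⟩ := (s.realsY hY r).1 hr
  have hrf : Obj.ex (.rf (D.yr i)) ∈ H := s.op' 31 (mem1 hi) rfl (fun _ h => h)
  by_contra hcon
  have hms : Obj.ms {z | ∀ n, ∀ k ≤ h z n, D.yr i z ∉ iv (c z (Nat.pair n k))} ∈ H :=
    s.op' 27 (mem3 hc hrf hy) rfl (fun _ h => h)
  obtain ⟨d3, hd3, h3⟩ := s.h.eval (measurableSet_uncH (s.ing.pl.my i) hcm hhm) hms (by
    intro n k hk hmem
    apply hcon
    simp only [Set.mem_iUnion]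
    exact ⟨n, k, hk, hmem⟩)
  obtain ⟨e, he, k1, k2⟩ := s.h.cpt hd hd3
  exact hcovH i e k1 (fun z hz => h3 (s.ing.pl.pf.mono k2 hz))

theorem notMenger2 (hX : Obj.nm (Xn D io) ∈ H) (hY : Obj.nm (Yn D io) ∈ H)
    (hcc : Obj.ex (.ff (fun _ => cc)) ∈ H) :
    ¬ MengerIn2 E (realsOf E (π (Xn D io)) ×ˢ realsOf E (π (Yn D io))) := by
  intro hM
  obtain ⟨h0, hh0, hcov⟩ := hM cc (s.seqIn' hcc measurable_const) (by
    rintro n ⟨x, y⟩ ⟨hx, hy⟩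
    obtain ⟨i, hi, rfl⟩ := (s.realsX hX x).1 hx
    obtain ⟨j, hj, rfl⟩ := (s.realsY hY y).1 hy
    obtain ⟨d, hd, k, hk⟩ := s.h.meet' 15 [.ex (.xi i), .ex (.yi j), .nt n]
      (mem3 hi hj (s.h.nt_mem n))
    rw [Set.mem_iUnion]
    exact ⟨k, hk g hd.2⟩)
  obtain ⟨h, hh, hhm, hhg⟩ := s.seqIn hh0
  subst hhg
  obtain ⟨d, hd, ht⟩ := s.h.meet' 14 [.ex (.ff h)] (mem1 hh)
  obtain ⟨i0, j0, hij0⟩ := ht hhm
  obtain ⟨y, hyi, i, rfl, j1, hij1⟩ := s.op 36 (y := .ex (.xi i0)) (mem2 hd.1 hh)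
    ⟨i0, rfl, j0, hij0⟩
  obtain ⟨y, hyj, j, rfl, hij⟩ := s.op 37 (y := .ex (.yi j1)) (mem3 hd.1 hh hyi)
    ⟨j1, rfl, hij1⟩
  have h1 := hcov (Set.mk_mem_prod ((s.realsX hX _).2 ⟨i, hyi, rfl⟩)
    ((s.realsY hY _).2 ⟨j, hyj, rfl⟩))
  simp only [Set.mem_iUnion] at h1
  obtain ⟨n, k, hk, h2⟩ := h1
  exact hij g hd.2 n k hk h2

theorem final (hRn : Obj.nm (Rn D io) ∈ H) (hX : Obj.nm (Xn D io) ∈ H) (hY : Obj.nm (Yn D io) ∈ H)
    (hcc : Obj.ex (.ff (fun _ => cc)) ∈ H) :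
    IsZFC E ∧ OmegaStd E ∧ (∃ R : M, ReapIn E R ∧ ¬ DomLe E R) ∧
    (∀ F : M, (∀ A, E A F → IsRealSet E A ∧ MengerIn E (realsOf E A)) →
      (∀ U : M, (∀ x, E x U ↔ ∃ A, E A F ∧ E x A) → MengerIn E (realsOf E U)) ∨ DomLe E F) ∧
    ∃ X Y : M, IsRealSet E X ∧ IsRealSet E Y ∧ MengerIn E (realsOf E X) ∧
      MengerIn E (realsOf E Y) ∧ ¬ MengerIn2 E (realsOf E X ×ˢ realsOf E Y) := by
  refine ⟨s.m.zfc, s.m.std, ⟨_, s.reap hRn, s.notDom hRn⟩, fun F hF => s.addM F hF,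
    π (Xn D io), π (Yn D io), ?_, ?_, s.mengerX hX, s.mengerY hY, s.notMenger2 hX hY hcc⟩
  · intro x hx
    obtain ⟨i, hi, hr, rfl⟩ := s.mem_Xn hX hx
    exact ⟨_, (s.realOut hr (s.ing.pl.mx i)).2⟩
  · intro x hx
    obtain ⟨i, hi, hr, rfl⟩ := s.mem_Yn hY hx
    exact ⟨_, (s.realOut hr (s.ing.pl.my i)).2⟩

end Sit

end

/-- The final theorem from the statements on conditions. -/
theorem final {PT RC XI YI K : Type} [MeasurableSpace PT] [Preorder RC] (D : Fam PT RC XI YI K)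
    (pl : PLevel D) : FinalStmt := by
  have a1 : A1Stmt := FL.H9.a1
  have a2a : FL.A2aStmt := FL.H76.a2a a1
  have a2b : FL.A2bStmt := FL.H76.a2b a1
  have a2c : FL.A2cStmt := FL.H76.a2c a1
  have a3 : A3Stmt := FL.H57.a3 a1
  have a4 : ModelStatement := FL.H9.a4 a1 a2a a2b a2c a3
  have a5 : FL.ROStmt := FL.H93.a5
  obtain ⟨B, _, io, hio⟩ := a5 RC
  obtain ⟨⟨dr, hdr1, hdr2, hdr3⟩, _, hcut, _⟩ := FL.H88.c6
  obtain ⟨cc, hcc1, hcc2⟩ := pl.nprod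
  obtain ⟨p0⟩ := pl.nonempty
  have ing : Ing D B io dr := ⟨a1, a3, hio, pl, hdr1, hdr2, hdr3, hcut⟩
  obtain ⟨H, g, h, hW, hp0⟩ := GF.exists_hull pl.pf pl.dec pl.br pl.gpl a1 a3 hio
    (relOp (xrel D io p0 cc dr)) (xtask D io p0 cc) (xtask_open pl.pf hio p0 cc)
    (xtask_dense pl.pf pl.dec a1 pl.reap pl.dom hcc1 hcc2 hio p0) p0
    ({Obj.nm (Rn D io), Obj.nm (Xn D io), Obj.nm (Yn D io), Obj.ex (.ff (fun _ => cc))} :
      Set (O B PT RC XI YI K))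
    ((((Set.countable_singleton _).insert _).insert _).insert _)
  obtain ⟨M, E, π, m⟩ := GF.exists_model a4 hio h
  have s : Sit D io p0 cc dr H g E π := ⟨ing, m, h, hp0⟩
  exact ⟨M, E, s.final (hW (by simp)) (hW (by simp)) (hW (by simp)) (hW (by simp))⟩

end Pool.Agent.MenG
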