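import Pool.Agent.Helper88_FL.C6
import Pool.Agent.Helper93_GEN.Hull
import Pool.Agent.Helper93_MEN.Generic

/-!
# Generic Boolean part 1: objects, choice relations, dense sets
-/

open MeasureTheory Set

namespace Pool.Agent.MenG

open Pool.Agent.FL (BSet beq bmem Fml nn sb om IsZFC IsNum OmegaStd Codes IsDenseEmb A1Stmt A3Stmt
  ModelStatement cutS)
open Pool.Agent.GF (Obj opair setN codeN)
open Pool.Agent.Men (gr iv iv2)

/-! ### Decoding -/

open Classical in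
/-- Decoding of a sequence of natural numbers. -/
noncomputable def dg (S : Set ℕ) (i : ℕ) : ℕ :=
  if h : ∃ e, Nat.pair i e ∈ S then Nat.find h else 0

theorem dg_gr (f : ℕ → ℕ) : dg (gr f) = f := by
  classical
  funext i
  have hex : ∃ e, Nat.pair i e ∈ gr f := ⟨f i, i, rfl⟩
  have h2 : dg (gr f) i = Nat.find hex := by
    unfold dg
    rw [dif_pos hex]
  rw [h2]
  obtain ⟨j, hj⟩ := Nat.find_spec hex
  obtain ⟨h3, h4⟩ := Nat.pair_eq_pair.1 hj
  rw [h4, h3]

theorem measurable_dg : Measurable dg := by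
  classical
  refine measurable_pi_lambda _ fun i => ?_
  refine measurable_to_countable' fun k => ?_
  have : (fun S : Set ℕ => dg S i) ⁻¹' {k} =
      ({S : Set ℕ | Nat.pair i k ∈ S} ∩ ⋂ j : Fin k, {S : Set ℕ | Nat.pair i j.val ∈ S}ᶜ) ∪
      (if k = 0 then ⋂ j : ℕ, {S : Set ℕ | Nat.pair i j ∈ S}ᶜ else ∅) := by
    ext S
    simp only [Set.mem_preimage, Set.mem_singleton_iff, Set.mem_union, Set.mem_inter_iff,
      Set.mem_iInter, Set.mem_compl_iff, Set.mem_ofPred_eq]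
    unfold dg
    by_cases h : ∃ e, Nat.pair i e ∈ S
    · rw [dif_pos h]
      constructor
      · intro hk
        left
        rw [← hk]
        refine ⟨Nat.find_spec h, fun j hj => ?_⟩
        exact Nat.find_min h j.2 hj
      · rintro (⟨h1, h2⟩ | h1)
        · apply le_antisymm (Nat.find_min' h h1)
          by_contra hlt
          push Not at hlt
          exact h2 ⟨Nat.find h, hlt⟩ (Nat.find_spec h)
        · split_ifs at h1 with hk0
          · obtain ⟨e, he⟩ := h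
            simp only [Set.mem_iInter, Set.mem_compl_iff, Set.mem_ofPred_eq] at h1
            exact (h1 e he).elim
          · exact h1.elim
    · rw [dif_neg h]
      push Not at h
      constructor
      · intro hk
        right
        rw [if_pos hk.symm]
        simp only [Set.mem_iInter, Set.mem_compl_iff, Set.mem_ofPred_eq]
        exact h
      · rintro (⟨h1, _⟩ | h1)
        · exact (h k h1).elim
        · split_ifs at h1 with hk0
          · exact hk0.symm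
          · exact h1.elim
  rw [this]
  refine MeasurableSet.union (MeasurableSet.inter (FL.H88.meas_mem_nat _)
    (MeasurableSet.iInter fun j => (FL.H88.meas_mem_nat _).compl)) ?_
  split_ifs
  · exact MeasurableSet.iInter fun j => (FL.H88.meas_mem_nat _).compl
  · exact MeasurableSet.empty

theorem measurable_gr : Measurable gr := by
  refine FL.H88.measurable_of_mem fun n => ?_
  have : {f : ℕ → ℕ | n ∈ gr f} = {f | f n.unpair.1 = n.unpair.2} := by
    ext f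
    simp only [gr, Set.mem_ofPred_eq]
    constructor
    · rintro ⟨i, rfl⟩
      simp
    · intro h
      refine ⟨n.unpair.1, ?_⟩
      rw [h, Nat.pair_unpair]
  rw [this]
  exact measurableSet_eq_fun (measurable_pi_apply _) measurable_const

theorem measurableSet_eqSet {Ω : Type*} [MeasurableSpace Ω] {S T : Ω → Set ℕ} (hS : Measurable S)
    (hT : Measurable T) : MeasurableSet {z | S z = T z} := by
  have : {z | S z = T z} = ⋂ n, ({z | n ∈ S z} ∩ {z | n ∈ T z}) ∪ ({z | n ∈ S z}ᶜ ∩ {z | n ∈ T z}ᶜ) := by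
    ext z
    simp only [Set.mem_ofPred_eq, Set.mem_iInter, Set.mem_union, Set.mem_inter_iff,
      Set.mem_compl_iff]
    constructor
    · intro h n
      rw [h]
      tauto
    · intro h
      ext n
      have := h n
      tauto
  rw [this]
  have h1 : ∀ n, MeasurableSet {z | n ∈ S z} := fun n => hS (FL.H88.meas_mem_nat n)
  have h2 : ∀ n, MeasurableSet {z | n ∈ T z} := fun n => hT (FL.H88.meas_mem_nat n)
  exact MeasurableSet.iInter fun n => ((h1 n).inter (h2 n)).union ((h1 n).compl.inter (h2 n).compl)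

/-! ### Objects -/

/-- Extra objects. -/
inductive XO (B PT XI YI K : Type) : Type 1
  | ix (b : Ix) : XO B PT XI YI K
  | kx (γ : K) : XO B PT XI YI K
  | ff (f : PT → ℕ → ℕ) : XO B PT XI YI K
  | rf (f : PT → ℝ) : XO B PT XI YI K
  | gs (A : Set ℕ) : XO B PT XI YI K
  | fa (A : Set ℕ → BSet B) : XO B PT XI YI K
  | fx (A : Ix → BSet B) : XO B PT XI YI K
  | xi (i : XI) : XO B PT XI YI K
  | yi (j : YI) : XO B PT XI YI K

/-- Objects. -/
abbrev O (B PT RC XI YI K : Type) : Type 1 := Obj B RC PT (XO B PT XI YI K)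

section
variable {PT RC XI YI K : Type} [MeasurableSpace PT] [Preorder RC] (D : Fam PT RC XI YI K)
variable {B : Type} [CompleteBooleanAlgebra B]

/-- The name of the sequence `f`. -/
noncomputable def opF (io : RC → B) (f : PT → ℕ → ℕ) : BSet B :=
  codeN D.rb io (fun z => gr (f z))

/-- The name of the real `f`. -/
noncomputable def opR (io : RC → B) (f : PT → ℝ) : BSet B := codeN D.rb io (fun z => cutS (f z))

/-- The name of the set `A` of the ground model. -/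
noncomputable def cst (io : RC → B) (A : Set ℕ) : BSet B := codeN D.rb io (fun _ => A)

/-- The infinite sets of the ground model. -/
noncomputable def Rn (io : RC → B) : BSet B :=
  setN (fun A : {A : Set ℕ // A.Infinite} => cst D io A.1)

/-- The name of `X`. -/
noncomputable def Xn (io : RC → B) : BSet B := setN (fun i : XI => opR D io (D.xr i))

/-- The name of `Y`. -/
noncomputable def Yn (io : RC → B) : BSet B := setN (fun j : YI => opR D io (D.yr j))

/-- The function mapping `A b` to the sequence `dm b`. -/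
noncomputable def GLn (io : RC → B) (A : Ix → BSet B) : BSet B :=
  setN (fun b : Ix => opair (A b) (opF D io (D.dm b)))

/-- The value of the function `G` at the ground model set `A`. -/
def relG (io : RC → B) (G : BSet B) (A : Set ℕ) (d : RC) (f : PT → ℕ → ℕ) : Prop :=
  io d ≤ bmem (opair (cst D io A) (opF D io f)) G ∨
    (f = 0 ∧ ∀ d' ≤ d, ∀ f' : PT → ℕ → ℕ, Measurable f' →
      ¬ io d' ≤ bmem (opair (cst D io A) (opF D io f')) G)

/-- The real `f` belongs to `a` and `a` belongs to `F`. -/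
def relF (io : RC → B) (F a : BSet B) (d : RC) (f : PT → ℝ) : Prop :=
  io d ≤ bmem a F ∧ io d ≤ bmem (opR D io f) a

/-- `f` is exceeded by `tt γ` after `m`. -/
def Exc (io : RC → B) (G : BSet B) (γ : K) (A : Set ℕ) (m : ℕ) (d : RC) (f : PT → ℕ → ℕ) :
    Prop :=
  Measurable f ∧ relG D io G A d f ∧ ∃ n ≥ m, ∀ z ∈ D.rb d, f z n < D.tt γ z n

/-- The conclusion of `GNDom`, below `p0`. -/
def NDg (io : RC → B) (p0 : RC) (G : BSet B) (γ : K) : Prop :=
  ∀ (A : Set ℕ), ∀ r ≤ p0, ∀ m : ℕ, ∃ r' ≤ r, ∃ f, Exc D io G γ A m r' f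

/-- `A` is contained in, or disjoint from `S`. -/
def Hom (d : RC) (S : PT → Set ℕ) (A : Set ℕ) : Prop :=
  A.Infinite ∧ ((∀ z ∈ D.rb d, A ⊆ S z) ∨ ∀ z ∈ D.rb d, Disjoint A (S z))

/-- `F` is contained in the family `A`. -/
def Small (io : RC → B) (d : RC) (F : BSet B) (A : Set ℕ → BSet B) : Prop :=
  io d ≤ ⨅ x : BSet B, (bmem x F ⇨ ⨆ i, beq x (A i))

/-- The family `A` consists of pairwise different elements of `F`. -/
def Large (io : RC → B) (d : RC) (F : BSet B) (A : Ix → BSet B) : Prop :=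
  (∀ b, io d ≤ bmem (A b) F) ∧ ∀ b b', b ≠ b' → io d ≤ (beq (A b) (A b'))ᶜ

/-- The real `f` in `a` is not covered at stage `n`. -/
def Unc (io : RC → B) (F a : BSet B) (c : PT → ℕ → ℕ) (d : RC) (f : PT → ℝ) (n : ℕ) : Prop :=
  Measurable f ∧ relF D io F a d f ∧ ∀ z ∈ D.rb d, ∀ k, f z ∉ iv (c z (Nat.pair n k))

/-- The real `f` in `a` is not covered by the finite parts given by `h`. -/
def UncH (io : RC → B) (F a : BSet B) (c h : PT → ℕ → ℕ) (d : RC) (f : PT → ℝ) : Prop :=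
  Measurable f ∧ relF D io F a d f ∧
    ∀ z ∈ D.rb d, ∀ n, ∀ k ≤ h z n, f z ∉ iv (c z (Nat.pair n k))

/-- `c` witnesses that `a` is not Menger. -/
def NMen (io : RC → B) (F a : BSet B) (d : RC) (c : PT → ℕ → ℕ) : Prop :=
  Measurable c ∧ Cov D (relF D io F a) d c ∧
    ∀ d' ≤ d, ∀ h : PT → ℕ → ℕ, Measurable h → ¬ CovH D (relF D io F a) d' c h

/-- The dense sets. -/
def xtask (io : RC → B) (p0 : RC) (cc : ℕ → ℕ) : ℕ → List (O B PT RC XI YI K) → Set RC
  | 0, [.sf S] => {d | Measurable S → ∃ A, Hom D d S A}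
  | 1, [.nm a] => {d | io d ≤ (bmem a (Rn D io))ᶜ ∨
      ∃ A : Set ℕ, A.Infinite ∧ io d ≤ beq a (cst D io A)}
  | 2, [.nm G, .ex (.kx γ), .ex (.gs A), .nt m] =>
      {d | NDg D io p0 G γ → D.rb d ⊆ (D.rb p0)ᶜ ∨ ∃ f, Exc D io G γ A m d f}
  | 3, [.ex (.ff h)] => {d | Measurable h → ∃ b : Ix, ∀ z ∈ D.rb d, ∀ n, h z n ≤ D.dm b z n}
  | 4, [.nm F] => {d | (∃ A, Small io d F A) ∨ ∃ A, Large io d F A}
  | 5, [.nm x, .ex (.fa A)] => {d | io d ≤ (⨆ i, beq x (A i))ᶜ ∨ ∃ i, io d ≤ beq x (A i)}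
  | 6, [.nm p, .ex (.fx A)] => {d | io d ≤ (bmem p (GLn D io A))ᶜ ∨
      ∃ b, io d ≤ beq p (opair (A b) (opF D io (D.dm b)))}
  | 7, [.nm F, .ex (.fa A), .ex (.ff c)] =>
      {d | (∀ i, Cov D (relF D io F (A i)) d c) ∨ ∃ i f n, Unc D io F (A i) c d f n}
  | 8, [.nm F, .ex (.fa A)] =>
      {d | (∀ i, MenRel D (relF D io F (A i)) d) ∨ ∃ i c, NMen D io F (A i) d c}
  | 9, [.nm F, .ex (.fa A), .ex (.gs i), .ex (.ff c), .ex (.ff h)] =>
      {d | (∀ d' ≤ d, ∀ f, ¬ UncH D io F (A i) c h d' f) ∨ ∃ f, UncH D io F (A i) c h d f}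
  | 10, [.nm x] => {d | io d ≤ (bmem x (Xn D io))ᶜ ∨ ∃ i, io d ≤ beq x (opR D io (D.xr i))}
  | 11, [.nm x] => {d | io d ≤ (bmem x (Yn D io))ᶜ ∨ ∃ j, io d ≤ beq x (opR D io (D.yr j))}
  | 12, [.ex (.ff c)] => {d | CovFam D D.xr d c ∨
      ∃ i n, ∀ z ∈ D.rb d, ∀ k, D.xr i z ∉ iv (c z (Nat.pair n k))}
  | 13, [.ex (.ff c)] => {d | CovFam D D.yr d c ∨
      ∃ j n, ∀ z ∈ D.rb d, ∀ k, D.yr j z ∉ iv (c z (Nat.pair n k))}
  | 14, [.ex (.ff h)] => {d | Measurable h → ∃ i j, UncP D cc d h i j}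
  | 15, [.ex (.xi i), .ex (.yi j), .nt n] => {d | ∃ k, ∀ z ∈ D.rb d,
      (D.xr i z, D.yr j z) ∈ iv2 (cc (Nat.pair n k))}
  | _, _ => Set.univ

/-- The choice relations. -/
def xrel (io : RC → B) (p0 : RC) (cc : ℕ → ℕ) (dr : Set ℕ → ℝ) :
    ℕ → List (O B PT RC XI YI K) → O B PT RC XI YI K → Prop
  | 0, [.ex (.rf f)], y => y = .sf (fun z => cutS (f z))
  | 1, [.ex (.ff f)], y => y = .sf (fun z => gr (f z))
  | 2, [.sf S], y => y = .ex (.rf (fun z => dr (S z)))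
  | 3, [.sf S], y => y = .ex (.ff (fun z => dg (S z)))
  | 4, [.sf S], y => y = .ms {z | S z = cutS (dr (S z))}
  | 5, [.sf S], y => y = .ms {z | S z = gr (dg (S z))}
  | 6, [.ex (.gs A)], y => y = .sf (fun _ => A)
  | 7, [.cd d, .sf S], y => ∃ A, y = .ex (.gs A) ∧ Hom D d S A
  | 8, [.cd d, .nm a], y => ∃ A, y = .ex (.gs A) ∧ A.Infinite ∧ io d ≤ beq a (cst D io A)
  | 9, [.nm G], y => ∃ γ, y = .ex (.kx γ) ∧ NDg D io p0 G γ
  | 10, [.ex (.ix b)], y => y = .ex (.ff (D.dm b))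
  | 38, [.ex (.kx γ)], y => y = .ex (.ff (D.tt γ))
  | 11, [.cd d, .nm G, .ex (.kx γ), .ex (.gs A), .nt m], y =>
      ∃ f, y = .ex (.ff f) ∧ Exc D io G γ A m d f
  | 12, [.cd d, .ex (.ff h)], y => ∃ b, y = .ex (.ix b) ∧ ∀ z ∈ D.rb d, ∀ n, h z n ≤ D.dm b z n
  | 13, [.cd d, .nm F], y => ∃ A, y = .ex (.fa A) ∧ Small io d F A
  | 14, [.cd d, .nm F], y => ∃ A, y = .ex (.fx A) ∧ Large io d F A
  | 15, [.cd d, .nm x, .ex (.fa A)], y => ∃ i, y = .ex (.gs i) ∧ io d ≤ beq x (A i)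
  | 16, [.cd d, .nm p, .ex (.fx A)], y => ∃ b, y = .ex (.ix b) ∧
      io d ≤ beq p (opair (A b) (opF D io (D.dm b)))
  | 17, [.ex (.fa A), .ex (.gs i)], y => y = .nm (A i)
  | 18, [.ex (.fx A), .ex (.ix b)], y => y = .nm (A b)
  | 19, [.ex (.fx A)], y => y = .nm (GLn D io A)
  | 20, [.cd d, .nm F, .ex (.fa A), .ex (.ff c)], y =>
      ∃ i, y = .ex (.gs i) ∧ ∃ f n, Unc D io F (A i) c d f n
  | 21, [.cd d, .nm F, .ex (.fa A), .ex (.ff c), .ex (.gs i)], y =>
      ∃ f, y = .ex (.rf f) ∧ ∃ n, Unc D io F (A i) c d f n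
  | 22, [.cd d, .nm F, .ex (.fa A)], y => ∃ i, y = .ex (.gs i) ∧ ∃ c, NMen D io F (A i) d c
  | 23, [.cd d, .nm F, .ex (.fa A), .ex (.gs i)], y => ∃ c, y = .ex (.ff c) ∧
      NMen D io F (A i) d c
  | 24, [.cd d, .nm F, .ex (.fa A), .ex (.gs i), .ex (.ff c), .ex (.ff h)], y =>
      ∃ f, y = .ex (.rf f) ∧ UncH D io F (A i) c h d f
  | 25, [.cd d, .nm F, .ex (.fa A), .ex (.ff c)], y => ∃ h, y = .ex (.ff h) ∧ Measurable h ∧
      ∀ i, CovH D (relF D io F (A i)) d c h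
  | 26, [.ex (.ff c), .ex (.rf f), .nt n], y => y = .ms {z | ∀ k, f z ∉ iv (c z (Nat.pair n k))}
  | 27, [.ex (.ff c), .ex (.rf f), .ex (.ff h)], y =>
      y = .ms {z | ∀ n, ∀ k ≤ h z n, f z ∉ iv (c z (Nat.pair n k))}
  | 28, [.cd d, .nm x], y => ∃ i, y = .ex (.xi i) ∧ io d ≤ beq x (opR D io (D.xr i))
  | 29, [.cd d, .nm x], y => ∃ j, y = .ex (.yi j) ∧ io d ≤ beq x (opR D io (D.yr j))
  | 30, [.ex (.xi i)], y => y = .ex (.rf (D.xr i))
  | 31, [.ex (.yi j)], y => y = .ex (.rf (D.yr j))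
  | 32, [.cd d, .ex (.ff c)], y => ∃ i, y = .ex (.xi i) ∧
      ∃ n, ∀ z ∈ D.rb d, ∀ k, D.xr i z ∉ iv (c z (Nat.pair n k))
  | 33, [.cd d, .ex (.ff c)], y => ∃ j, y = .ex (.yi j) ∧
      ∃ n, ∀ z ∈ D.rb d, ∀ k, D.yr j z ∉ iv (c z (Nat.pair n k))
  | 34, [.cd d, .ex (.ff c)], y => ∃ h, y = .ex (.ff h) ∧ Measurable h ∧ CovFamH D D.xr d c h
  | 35, [.cd d, .ex (.ff c)], y => ∃ h, y = .ex (.ff h) ∧ Measurable h ∧ CovFamH D D.yr d c h
  | 36, [.cd d, .ex (.ff h)], y => ∃ i, y = .ex (.xi i) ∧ ∃ j, UncP D cc d h i j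
  | 37, [.cd d, .ex (.ff h), .ex (.xi i)], y => ∃ j, y = .ex (.yi j) ∧ UncP D cc d h i j
  | _, _, _ => False

end

end Pool.Agent.MenG
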