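import Pool.Agent.Helper93_MEN.G1

/-!
# Squad MEN, final part 2: the dense sets are open and dense
-/

open MeasureTheory Set

namespace Pool.Agent.MenG

open Pool.Agent.FL (BSet beq bmem Fml nn sb om IsZFC IsNum OmegaStd Codes IsDenseEmb A1Stmt A3Stmt
  ModelStatement cutS)
open Pool.Agent.GF (Obj opair setN codeN IsPF)
open Pool.Agent.Men (gr iv iv2)
open FL.H25 (le_iff_dense le_compl_iff_forall exists_decide)

section
variable {PT RC XI YI K : Type} [MeasurableSpace PT] [Preorder RC] {D : Fam PT RC XI YI K}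
variable {B : Type} [CompleteBooleanAlgebra B] {io : RC → B}

theorem relG_mono (hio : IsDenseEmb io) {G : BSet B} {A : Set ℕ} {d e : RC} {f : PT → ℕ → ℕ}
    (he : e ≤ d) (h : relG D io G A d f) : relG D io G A e f := by
  rcases h with h | ⟨h1, h2⟩
  · exact Or.inl ((hio.mono _ _ he).trans h)
  · exact Or.inr ⟨h1, fun d' hd' => h2 d' (hd'.trans he)⟩

theorem relF_mono (hio : IsDenseEmb io) {F a : BSet B} {d e : RC} {f : PT → ℝ}
    (he : e ≤ d) (h : relF D io F a d f) : relF D io F a e f :=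
  ⟨(hio.mono _ _ he).trans h.1, (hio.mono _ _ he).trans h.2⟩

theorem xtask_open (hPF : IsPF D.rb) (hio : IsDenseEmb io) (p0 : RC) (cc : ℕ → ℕ) (i : ℕ)
    (l : List (O B PT RC XI YI K)) :
    ∀ d ∈ xtask D io p0 cc i l, ∀ e ≤ d, e ∈ xtask D io p0 cc i l := by
  intro d hd e he
  have hm := hio.mono _ _ he
  have hb := hPF.mono he
  unfold xtask at hd ⊢
  split at hd
  · intro hS
    obtain ⟨A, hA1, hA2 | hA2⟩ := hd hS
    · exact ⟨A, hA1, Or.inl fun z hz => hA2 z (hb hz)⟩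
    · exact ⟨A, hA1, Or.inr fun z hz => hA2 z (hb hz)⟩
  · rcases hd with hd | ⟨A, hA, hd⟩
    · exact Or.inl (hm.trans hd)
    · exact Or.inr ⟨A, hA, hm.trans hd⟩
  · intro hN
    rcases hd hN with hd | ⟨f, hf1, hf2, n, hn, hf3⟩
    · exact Or.inl (Set.Subset.trans hb hd)
    · exact Or.inr ⟨f, hf1, relG_mono hio he hf2, n, hn, fun z hz => hf3 z (hb hz)⟩
  · intro hh
    obtain ⟨b, hb'⟩ := hd hh
    exact ⟨b, fun z hz => hb' z (hb hz)⟩
  · rcases hd with ⟨A, hd⟩ | ⟨A, hd1, hd2⟩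
    · exact Or.inl ⟨A, hm.trans hd⟩
    · exact Or.inr ⟨A, fun b => hm.trans (hd1 b), fun b b' hbb => hm.trans (hd2 b b' hbb)⟩
  · rcases hd with hd | ⟨i, hd⟩
    · exact Or.inl (hm.trans hd)
    · exact Or.inr ⟨i, hm.trans hd⟩
  · rcases hd with hd | ⟨i, hd⟩
    · exact Or.inl (hm.trans hd)
    · exact Or.inr ⟨i, hm.trans hd⟩
  · rcases hd with hd | ⟨i, f, n, h1, h2, h3⟩
    · exact Or.inl fun i d' hd' => hd i d' (hd'.trans he)
    · exact Or.inr ⟨i, f, n, h1, relF_mono hio he h2, fun z hz => h3 z (hb hz)⟩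
  · rcases hd with hd | ⟨i, c, h1, h2, h3⟩
    · exact Or.inl fun i d' hd' => hd i d' (hd'.trans he)
    · exact Or.inr ⟨i, c, h1, fun d' hd' => h2 d' (hd'.trans he),
        fun d' hd' => h3 d' (hd'.trans he)⟩
  · rcases hd with hd | ⟨f, h1, h2, h3⟩
    · exact Or.inl fun d' hd' => hd d' (hd'.trans he)
    · exact Or.inr ⟨f, h1, relF_mono hio he h2, fun z hz => h3 z (hb hz)⟩
  · rcases hd with hd | ⟨i, hd⟩
    · exact Or.inl (hm.trans hd)
    · exact Or.inr ⟨i, hm.trans hd⟩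
  · rcases hd with hd | ⟨i, hd⟩
    · exact Or.inl (hm.trans hd)
    · exact Or.inr ⟨i, hm.trans hd⟩
  · rcases hd with hd | ⟨i, n, hd⟩
    · exact Or.inl fun i d' hd' => hd i d' (hd'.trans he)
    · exact Or.inr ⟨i, n, fun z hz => hd z (hb hz)⟩
  · rcases hd with hd | ⟨i, n, hd⟩
    · exact Or.inl fun i d' hd' => hd i d' (hd'.trans he)
    · exact Or.inr ⟨i, n, fun z hz => hd z (hb hz)⟩
  · intro hh
    obtain ⟨i, j, hd⟩ := hd hh
    exact ⟨i, j, fun z hz => hd z (hb hz)⟩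
  · obtain ⟨k, hd⟩ := hd
    exact ⟨k, fun z hz => hd z (hb hz)⟩
  · exact Set.mem_univ _

/-- Membership in a set of the form `setN A` is decided by an index. -/
theorem dense_setN (hio : IsDenseEmb io) {ι : Type} (A : ι → BSet B) (x : BSet B) (q : RC) :
    ∃ d ≤ q, io d ≤ (bmem x (setN A))ᶜ ∨ ∃ i, io d ≤ beq x (A i) := by
  obtain ⟨d, hd, h⟩ := exists_decide hio q (bmem x (setN A))
  rcases h with h | h
  · rw [GF.bmem_setN] at h
    obtain ⟨e, he, i, hi⟩ := GF.dense_iSup hio _ h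
    exact ⟨e, he.trans hd, Or.inr ⟨i, hi⟩⟩
  · exact ⟨d, hd, Or.inl h⟩

/-- Below an element of `Ix` there are at most continuum many indices. -/
theorem exists_enum (b : Ix) : ∃ g : Set ℕ → Option {a : Ix // a < b}, ∀ a, ∃ j, g j = some a := by
  classical
  have h1 : Cardinal.mk {a : Ix // a < b} ≤ Cardinal.mk (Set ℕ) := by
    rw [Cardinal.mk_set, Cardinal.mk_nat, Cardinal.two_power_aleph0]
    have h2 : Cardinal.mk (Set.Iio b) < Order.succ Cardinal.continuum.{0} := by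
      exact Cardinal.mk_Iio_toType_ord_lt b
    exact Order.lt_succ_iff.1 h2
  obtain ⟨f⟩ := h1
  refine ⟨fun S => if h : ∃ a, f a = S then some h.choose else none, fun a => ⟨f a, ?_⟩⟩
  have hex : ∃ a', f a' = f a := ⟨a, rfl⟩
  simp only [hex, dif_pos]
  congr 1
  exact f.injective hex.choose_spec

theorem xtask_dense (hPF : IsPF D.rb) (hDec : GF.Dec D.rb) (hA1 : A1Stmt) (hR : GReap D)
    (hDm : GDom D) {cc : ℕ → ℕ} (hcc1 : ∀ (i : XI) (j : YI) (r : RC) (n : ℕ), ∃ r' ≤ r, ∃ k, ∀ z ∈ D.rb r',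
      (D.xr i z, D.yr j z) ∈ iv2 (cc (Nat.pair n k)))
    (hcc2 : ∀ h : PT → ℕ → ℕ, Measurable h → ∀ r : RC, ∃ r' ≤ r, ∃ i j, UncP D cc r' h i j)
    (hio : IsDenseEmb io) (p0 : RC) (i : ℕ) (l : List (O B PT RC XI YI K)) :
    ∀ q, ∃ d ∈ xtask D io p0 cc i l, d ≤ q := by
  intro q
  unfold xtask
  split
  · rename_i S
    by_cases hS : Measurable S
    · obtain ⟨d, hd, A, hA1, hA2⟩ := hR q S hS
      exact ⟨d, fun _ => ⟨A, hA1, hA2⟩, hd⟩
    · exact ⟨q, fun h => (hS h).elim, le_rfl⟩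
  · rename_i a
    obtain ⟨d, hd, h | ⟨A, h⟩⟩ := dense_setN hio
      (fun A : {A : Set ℕ // A.Infinite} => cst D io A.1) a q
    · exact ⟨d, Or.inl h, hd⟩
    · exact ⟨d, Or.inr ⟨A.1, A.2, h⟩, hd⟩
  · rename_i G γ A m
    by_cases hN : NDg D io p0 G γ
    · obtain ⟨q', hq', h | h⟩ := hDec q (D.rb p0) (hPF.meas p0)
      · obtain ⟨d, hd, f, hf⟩ := hN A q' ((hPF.le_iff _ _).2 h) m
        exact ⟨d, fun _ => Or.inr ⟨f, hf⟩, hd.trans hq'⟩
      · exact ⟨q', fun _ => Or.inl h, hq'⟩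
    · exact ⟨q, fun h => (hN h).elim, le_rfl⟩
  · rename_i h
    by_cases hh : Measurable h
    · obtain ⟨d, hd, b, hb⟩ := hDm h hh q
      exact ⟨d, fun _ => ⟨b, hb⟩, hd⟩
    · exact ⟨q, fun h => (hh h).elim, le_rfl⟩
  · rename_i F
    rcases GF.small_or_large hA1 hio (K := Ix) (Set ℕ) exists_enum F q with ⟨e, he, A, hA⟩ | ⟨A, h1, h2⟩
    · exact ⟨e, Or.inl ⟨A, hA⟩, he⟩
    · exact ⟨q, Or.inr ⟨A, h1, h2⟩, le_rfl⟩
  · rename_i x A
    obtain ⟨d, hd, h | ⟨i, h⟩⟩ := dense_setN hio A x q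
    · rw [GF.bmem_setN] at h
      exact ⟨d, Or.inl h, hd⟩
    · exact ⟨d, Or.inr ⟨i, h⟩, hd⟩
  · rename_i p A
    obtain ⟨d, hd, h | ⟨i, h⟩⟩ := dense_setN hio
      (fun b : Ix => opair (A b) (opF D io (D.dm b))) p q
    · exact ⟨d, Or.inl h, hd⟩
    · exact ⟨d, Or.inr ⟨i, h⟩, hd⟩
  · rename_i F A c
    by_cases h : ∀ i, Cov D (relF D io F (A i)) q c
    · exact ⟨q, Or.inl h, le_rfl⟩
    · unfold Cov at h
      push Not at h
      obtain ⟨i, d, hd, f, hf, hrel, n, hn⟩ := h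
      exact ⟨d, Or.inr ⟨i, f, n, hf, hrel, hn⟩, hd⟩
  · rename_i F A
    by_cases h : ∀ i, MenRel D (relF D io F (A i)) q
    · exact ⟨q, Or.inl h, le_rfl⟩
    · unfold MenRel at h
      push Not at h
      obtain ⟨i, d, hd, c, hc, hcov, hno⟩ := h
      exact ⟨d, Or.inr ⟨i, c, hc, hcov, hno⟩, hd⟩
  · rename_i F A i c h
    by_cases hex : ∃ d ≤ q, ∃ f, UncH D io F (A i) c h d f
    · obtain ⟨d, hd, f, hf⟩ := hex
      exact ⟨d, Or.inr ⟨f, hf⟩, hd⟩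
    · push Not at hex
      exact ⟨q, Or.inl hex, le_rfl⟩
  · rename_i x
    obtain ⟨d, hd, h | ⟨i, h⟩⟩ := dense_setN hio (fun i : XI => opR D io (D.xr i)) x q
    · exact ⟨d, Or.inl h, hd⟩
    · exact ⟨d, Or.inr ⟨i, h⟩, hd⟩
  · rename_i x
    obtain ⟨d, hd, h | ⟨i, h⟩⟩ := dense_setN hio (fun i : YI => opR D io (D.yr i)) x q
    · exact ⟨d, Or.inl h, hd⟩
    · exact ⟨d, Or.inr ⟨i, h⟩, hd⟩
  · rename_i c
    by_cases h : CovFam D D.xr q c
    · exact ⟨q, Or.inl h, le_rfl⟩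
    · unfold CovFam at h
      push Not at h
      obtain ⟨i, d, hd, n, hn⟩ := h
      exact ⟨d, Or.inr ⟨i, n, hn⟩, hd⟩
  · rename_i c
    by_cases h : CovFam D D.yr q c
    · exact ⟨q, Or.inl h, le_rfl⟩
    · unfold CovFam at h
      push Not at h
      obtain ⟨i, d, hd, n, hn⟩ := h
      exact ⟨d, Or.inr ⟨i, n, hn⟩, hd⟩
  · rename_i h
    by_cases hh : Measurable h
    · obtain ⟨d, hd, i, j, hij⟩ := hcc2 h hh q
      exact ⟨d, fun _ => ⟨i, j, hij⟩, hd⟩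
    · exact ⟨q, fun h => (hh h).elim, le_rfl⟩
  · rename_i i j n
    obtain ⟨d, hd, k, hk⟩ := hcc1 i j q n
    exact ⟨d, ⟨k, hk⟩, hd⟩
  · exact ⟨q, Set.mem_univ _, le_rfl⟩

end

end Pool.Agent.MenG
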