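import Pool.Agent.Helper93_MEN.G2

/-!
# Squad MEN, final part 3: the model
-/

open MeasureTheory Set

namespace Pool.Agent.MenG

open Pool.Agent.FL (BSet beq bmem Fml nn sb om IsZFC IsNum OmegaStd Codes IsDenseEmb A1Stmt A3Stmt
  ModelStatement cutS IsRealSet realsOf)
open Pool.Agent.GF (Obj opair upair setN codeN IsPF CC GG HullProp ModelProp relOp mem1 mem2 mem3
  memc)
open Pool.Agent.Men (gr iv iv2 SeqIn MengerIn MengerIn2 ReapIn IsOPair DomLe)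
open FL.H25 (le_iff_dense le_compl_iff_forall exists_decide)

/-! ### Ordered pairs in a structure -/

theorem oPair_unique {M : Type} {E : M → M → Prop} (hZ : IsZFC E) {p p' x y : M}
    (h : IsOPair E p x y) (h' : IsOPair E p' x y) : p = p' := by
  apply hZ.ext
  intro c
  rw [h c, h' c]

theorem oPair_inj {M : Type} {E : M → M → Prop} (hZ : IsZFC E) {p x y x' y' : M}
    (h : IsOPair E p x y) (h' : IsOPair E p x' y') : x = x' ∧ y = y' := by
  have hsing : ∀ a : M, ∃ s, ∀ w, E w s ↔ w = a := by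
    intro a
    obtain ⟨s, hs⟩ := hZ.pair a a
    exact ⟨s, fun w => by rw [hs w]; tauto⟩
  -- the singleton of x
  obtain ⟨s, hs⟩ := hsing x
  have h1 : E s p := (h s).2 (Or.inl hs)
  have hx : x = x' := by
    rcases (h' s).1 h1 with h2 | h2
    · have h3 : E x s := (hs x).2 rfl
      exact (h2 x).1 h3
    · have h3 : E x' s := (h2 x').2 (Or.inl rfl)
      exact ((hs x').1 h3).symm
  subst hx
  refine ⟨rfl, ?_⟩
  obtain ⟨t, ht⟩ := hZ.pair x y
  obtain ⟨t', ht'⟩ := hZ.pair x y'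
  have h4 : E t p := (h t).2 (Or.inr ht)
  have h5 : E t' p := (h' t').2 (Or.inr ht')
  have h6 := (h' t).1 h4
  have h7 := (h t').1 h5
  have hy : y = x ∨ y = y' := by
    have h8 : E y t := (ht y).2 (Or.inr rfl)
    rcases h6 with h6 | h6
    · exact Or.inl ((h6 y).1 h8)
    · exact (h6 y).1 h8
  have hy' : y' = x ∨ y' = y := by
    have h8 : E y' t' := (ht' y').2 (Or.inr rfl)
    rcases h7 with h7 | h7
    · exact Or.inl ((h7 y').1 h8)
    · exact (h7 y').1 h8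
  rcases hy with hy | hy
  · rcases hy' with hy' | hy'
    · rw [hy, hy']
    · exact hy'.symm
  · exact hy

theorem gr_inj {f f' : ℕ → ℕ} (h : gr f = gr f') : f = f' := by
  rw [← dg_gr f, h, dg_gr]

/-! ### Measurability of the relevant sets -/

theorem measurableSet_iv (n : ℕ) : MeasurableSet (iv n) := measurableSet_Ioo

theorem measurableSet_mem_iv {Ω : Type*} [MeasurableSpace Ω] {f : Ω → ℝ} {c : Ω → ℕ}
    (hf : Measurable f) (hc : Measurable c) : MeasurableSet {z | f z ∈ iv (c z)} := by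
  have : {z | f z ∈ iv (c z)} = ⋃ n, ({z | c z = n} ∩ {z | f z ∈ iv n}) := by
    ext z
    simp
  rw [this]
  exact MeasurableSet.iUnion fun n => (hc (measurableSet_singleton n)).inter
    (hf (measurableSet_iv n))

theorem measurableSet_unc {PT : Type} [MeasurableSpace PT] {f : PT → ℝ} {c : PT → ℕ → ℕ} (hf : Measurable f) (hc : Measurable c)
    (n : ℕ) : MeasurableSet {z | ∀ k, f z ∉ iv (c z (Nat.pair n k))} := by
  have : {z | ∀ k, f z ∉ iv (c z (Nat.pair n k))} =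
      ⋂ k, {z | f z ∈ iv (c z (Nat.pair n k))}ᶜ := by
    ext z
    simp
  rw [this]
  exact MeasurableSet.iInter fun k =>
    (measurableSet_mem_iv hf ((measurable_pi_apply _).comp hc)).compl

theorem measurableSet_uncH {PT : Type} [MeasurableSpace PT] {f : PT → ℝ} {c h : PT → ℕ → ℕ} (hf : Measurable f)
    (hc : Measurable c) (hh : Measurable h) :
    MeasurableSet {z | ∀ n, ∀ k ≤ h z n, f z ∉ iv (c z (Nat.pair n k))} := by
  have : {z | ∀ n, ∀ k ≤ h z n, f z ∉ iv (c z (Nat.pair n k))} =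
      ⋂ n, ⋂ k, ({z | k ≤ h z n}ᶜ ∪ {z | f z ∈ iv (c z (Nat.pair n k))}ᶜ) := by
    ext z
    simp only [Set.mem_ofPred_eq, Set.mem_iInter, Set.mem_union, Set.mem_compl_iff]
    refine forall₂_congr fun n k => ?_
    tauto
  rw [this]
  refine MeasurableSet.iInter fun n => MeasurableSet.iInter fun k => MeasurableSet.union ?_ ?_
  · exact (measurableSet_le measurable_const ((measurable_pi_apply n).comp hh)).compl
  · exact (measurableSet_mem_iv hf ((measurable_pi_apply _).comp hc)).compl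

/-- All the ingredients. -/
structure Ing {PT RC XI YI K : Type} [MeasurableSpace PT] [Preorder RC] (D : Fam PT RC XI YI K)
    (B : Type) [CompleteBooleanAlgebra B] (io : RC → B) (dr : Set ℕ → ℝ) : Prop where
  a1 : A1Stmt
  a3 : A3Stmt
  hio : IsDenseEmb io
  pl : PLevel D
  dr1 : Measurable dr
  dr2 : ∀ r, dr (cutS r) = r
  dr3 : MeasurableSet {S : Set ℕ | S = cutS (dr S)}
  cut : Measurable cutS

section
variable {PT RC XI YI K : Type} [MeasurableSpace PT] [Preorder RC] {D : Fam PT RC XI YI K}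
variable {B : Type} [CompleteBooleanAlgebra B] {io : RC → B} {p0 : RC} {cc : ℕ → ℕ}
  {dr : Set ℕ → ℝ}
  {H : Set (O B PT RC XI YI K)} {g : PT} {M : Type} {E : M → M → Prop} {π : BSet B → M}

/-- The situation. -/
structure Sit (D : Fam PT RC XI YI K) (io : RC → B) (p0 : RC) (cc : ℕ → ℕ) (dr : Set ℕ → ℝ)
    (H : Set (O B PT RC XI YI K)) (g : PT)
    (E : M → M → Prop) (π : BSet B → M) : Prop where
  ing : Ing D B io dr
  m : ModelProp D.rb io H g E π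
  h : HullProp D.rb io (relOp (xrel D io p0 cc dr)) (xtask D io p0 cc) H g
  p0 : Obj.cd p0 ∈ H ∧ g ∈ D.rb p0

namespace Sit
variable (s : Sit D io p0 cc dr H g E π)
include s

theorem op (i : ℕ) {l : List (O B PT RC XI YI K)} (hl : ∀ x ∈ l, x ∈ H) {y : O B PT RC XI YI K}
    (hy : xrel D io p0 cc dr i l y) : ∃ y ∈ H, xrel D io p0 cc dr i l y := s.h.clr i hl ⟨y, hy⟩

/-- Deterministic operations. -/
theorem op' (i : ℕ) {l : List (O B PT RC XI YI K)} (hl : ∀ x ∈ l, x ∈ H) {y : O B PT RC XI YI K}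
    (hy : xrel D io p0 cc dr i l y) (hu : ∀ y', xrel D io p0 cc dr i l y' → y' = y) : y ∈ H := by
  obtain ⟨y', h1, h2⟩ := s.op i hl hy
  rw [← hu y' h2]
  exact h1

theorem absurd' {d : RC} (hd : d ∈ CC D.rb H g) {b : B} (hb : b ∈ GG D.rb io H g)
    (h : io d ≤ bᶜ) : False := s.h.not_both s.ing.hio hb ⟨d, hd, h⟩

theorem seqOut {f : PT → ℕ → ℕ} (hf : Obj.ex (.ff f) ∈ H) (hfm : Measurable f) :
    Obj.nm (opF D io f) ∈ H ∧ Codes E (π (opF D io f)) (gr (f g)) :=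
  s.m.codes_codeN s.h s.ing.a3 s.ing.pl.pf s.ing.pl.dec s.ing.hio (measurable_gr.comp hfm)
    (s.op' 1 (mem1 hf) rfl (fun _ h => h))

theorem realOut {f : PT → ℝ} (hf : Obj.ex (.rf f) ∈ H) (hfm : Measurable f) :
    Obj.nm (opR D io f) ∈ H ∧ Codes E (π (opR D io f)) (cutS (f g)) :=
  s.m.codes_codeN s.h s.ing.a3 s.ing.pl.pf s.ing.pl.dec s.ing.hio (s.ing.cut.comp hfm)
    (s.op' 0 (mem1 hf) rfl (fun _ h => h))

theorem cstOut {A : Set ℕ} (hA : Obj.ex (.gs A) ∈ H) :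
    Obj.nm (cst D io A) ∈ H ∧ Codes E (π (cst D io A)) A :=
  s.m.codes_codeN s.h s.ing.a3 s.ing.pl.pf s.ing.pl.dec s.ing.hio measurable_const
    (s.op' 6 (mem1 hA) rfl (fun _ h => h))

theorem seqRead {x : BSet B} (hx : Obj.nm x ∈ H) {c : ℕ → ℕ} (hc : Codes E (π x) (gr c)) :
    ∃ f, Obj.ex (.ff f) ∈ H ∧ Measurable f ∧ f g = c ∧
      ∃ e ∈ CC D.rb H g, io e ≤ beq x (opF D io f) := by
  obtain ⟨S, hSH, hS, hSg, e, he, hle⟩ := s.m.read s.h s.ing.a3 s.ing.pl.pf s.ing.pl.dec s.ing.hio hx hc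
  have hrf : Obj.ex (.ff (fun y => dg (S y))) ∈ H := s.op' 3 (mem1 hSH) rfl (fun _ h => h)
  have hms : Obj.ms {y | S y = gr (dg (S y))} ∈ H := s.op' 5 (mem1 hSH) rfl (fun _ h => h)
  have hmeas : MeasurableSet {y | S y = gr (dg (S y))} :=
    measurableSet_eqSet hS (measurable_gr.comp (measurable_dg.comp hS))
  obtain ⟨d, hd, hdb⟩ := s.h.eval hmeas hms (show S g = gr (dg (S g)) by rw [hSg, dg_gr])
  obtain ⟨e', he', h1, h2⟩ := s.h.cpt he hd
  refine ⟨_, hrf, measurable_dg.comp hS, by simp only [hSg, dg_gr], e', he', ?_⟩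
  have h3 : io e' ≤ beq (codeN D.rb io S) (opF D io fun y => dg (S y)) :=
    GF.codeEq s.ing.a1 s.ing.pl.pf s.ing.hio e' S (fun y => gr (dg (S y)))
      (fun y hy => hdb (s.ing.pl.pf.mono h2 hy))
  have h4 : io e' ≤ beq x (codeN D.rb io S) := (s.ing.hio.mono _ _ h1).trans hle
  exact (le_inf h4 h3).trans ((s.ing.a1 B).2.2.1 _ _ _)

theorem realRead {x : BSet B} (hx : Obj.nm x ∈ H) {r : ℝ} (hc : Codes E (π x) (cutS r)) :
    ∃ f, Obj.ex (.rf f) ∈ H ∧ Measurable f ∧ f g = r ∧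
      ∃ e ∈ CC D.rb H g, io e ≤ beq x (opR D io f) := by
  obtain ⟨S, hSH, hS, hSg, e, he, hle⟩ := s.m.read s.h s.ing.a3 s.ing.pl.pf s.ing.pl.dec s.ing.hio hx hc
  have hrf : Obj.ex (.rf (fun y => dr (S y))) ∈ H := s.op' 2 (mem1 hSH) rfl (fun _ h => h)
  have hms : Obj.ms {y | S y = cutS (dr (S y))} ∈ H := s.op' 4 (mem1 hSH) rfl (fun _ h => h)
  have hmeas : MeasurableSet {y | S y = cutS (dr (S y))} := hS s.ing.dr3
  obtain ⟨d, hd, hdb⟩ := s.h.eval hmeas hms (show S g = cutS (dr (S g)) by rw [hSg, s.ing.dr2])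
  obtain ⟨e', he', h1, h2⟩ := s.h.cpt he hd
  refine ⟨_, hrf, s.ing.dr1.comp hS, by simp only [hSg, s.ing.dr2], e', he', ?_⟩
  have h3 : io e' ≤ beq (codeN D.rb io S) (opR D io fun y => dr (S y)) :=
    GF.codeEq s.ing.a1 s.ing.pl.pf s.ing.hio e' S (fun y => cutS (dr (S y)))
      (fun y hy => hdb (s.ing.pl.pf.mono h2 hy))
  have h4 : io e' ≤ beq x (codeN D.rb io S) := (s.ing.hio.mono _ _ h1).trans hle
  exact (le_inf h4 h3).trans ((s.ing.a1 B).2.2.1 _ _ _)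

/-- Sequences of the model. -/
theorem seqIn {c : ℕ → ℕ} (hc : SeqIn E c) : ∃ f, Obj.ex (.ff f) ∈ H ∧ Measurable f ∧ f g = c := by
  obtain ⟨a, ha⟩ := hc
  obtain ⟨x, hx, rfl⟩ := s.m.surj a
  obtain ⟨f, h1, h2, h3, _⟩ := s.seqRead hx ha
  exact ⟨f, h1, h2, h3⟩

theorem seqIn' {f : PT → ℕ → ℕ} (hf : Obj.ex (.ff f) ∈ H) (hfm : Measurable f) :
    SeqIn E (f g) := ⟨_, (s.seqOut hf hfm).2⟩

theorem memName {x a : BSet B} (hx : Obj.nm x ∈ H) (ha : Obj.nm a ∈ H) :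
    E (π x) (π a) ↔ ∃ d ∈ CC D.rb H g, io d ≤ bmem x a := s.m.memi x a hx ha

theorem eqName {x a : BSet B} (hx : Obj.nm x ∈ H) (ha : Obj.nm a ∈ H) {d : RC}
    (hd : d ∈ CC D.rb H g) (h : io d ≤ beq x a) : π x = π a := (s.m.eqi x a hx ha).2 ⟨d, hd, h⟩

theorem opairOut {a b : BSet B} (ha : Obj.nm a ∈ H) (hb : Obj.nm b ∈ H) :
    Obj.nm (opair a b) ∈ H ∧ IsOPair E (π (opair a b)) (π a) (π b) := by
  obtain ⟨h1, h2⟩ := s.m.mem_upair s.h s.ing.hio ha ha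
  obtain ⟨h3, h4⟩ := s.m.mem_upair s.h s.ing.hio ha hb
  obtain ⟨h5, h6⟩ := s.m.mem_upair s.h s.ing.hio h1 h3
  refine ⟨h5, fun z => ?_⟩
  change E z (π (upair (upair a a) (upair a b))) ↔ _
  rw [h6 z]
  constructor
  · rintro (rfl | rfl)
    · exact Or.inl fun w => by rw [h2 w]; tauto
    · exact Or.inr fun w => h4 w
  · rintro (hz | hz)
    · left
      apply s.m.zfc.ext
      intro c
      rw [hz c, h2 c]; tauto
    · right
      apply s.m.zfc.ext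
      intro c
      rw [hz c, h4 c]

/-- Membership in a set of the form `setN A`. -/
theorem mem_setN {ι : Type} {A : ι → BSet B} {i : ι} {d : RC} (hd : d ∈ CC D.rb H g)
    (hA : Obj.nm (A i) ∈ H) (hset : Obj.nm (setN A) ∈ H) : E (π (A i)) (π (setN A)) := by
  rw [s.memName hA hset]
  refine ⟨d, hd, ?_⟩
  rw [GF.bmem_setN]
  refine le_trans ?_ (le_iSup _ i)
  rw [(s.ing.a1 B).1]
  exact le_top

theorem exists_cc : ∃ d, d ∈ CC D.rb H g := by
  obtain ⟨d, hd, _⟩ := s.h.meet' 100 [] (by simp)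
  exact ⟨d, hd⟩

/-! ### The reals of the sets -/

theorem reals_mem {a : BSet B} (ha : Obj.nm a ∈ H) {r : ℝ} (hr : r ∈ realsOf E (π a)) :
    ∃ f, Obj.ex (.rf f) ∈ H ∧ Measurable f ∧ f g = r ∧
      ∃ d ∈ CC D.rb H g, io d ≤ bmem (opR D io f) a := by
  obtain ⟨x, hxa, hc⟩ := hr
  obtain ⟨x, hx, rfl⟩ := s.m.surj x
  obtain ⟨f, hf, hfm, hfg, e, he, hle⟩ := s.realRead hx hc
  obtain ⟨d, hd, hdb⟩ := (s.memName hx ha).1 hxa
  obtain ⟨e', he', h1, h2⟩ := s.h.cpt he hd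
  refine ⟨f, hf, hfm, hfg, e', he', ?_⟩
  exact (le_inf ((s.ing.hio.mono _ _ h1).trans hle) ((s.ing.hio.mono _ _ h2).trans hdb)).trans
    ((s.ing.a1 B).2.2.2.1 _ _ _)

theorem mem_reals {a : BSet B} (ha : Obj.nm a ∈ H) {f : PT → ℝ} (hf : Obj.ex (.rf f) ∈ H)
    (hfm : Measurable f) {d : RC} (hd : d ∈ CC D.rb H g) (h : io d ≤ bmem (opR D io f) a) :
    f g ∈ realsOf E (π a) := by
  obtain ⟨h1, h2⟩ := s.realOut hf hfm
  exact ⟨_, (s.memName h1 ha).2 ⟨d, hd, h⟩, h2⟩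

/-! ### Reaping families -/

/-- Elements of the set of infinite sets of the ground model. -/
theorem mem_Rn (hRn : Obj.nm (Rn D io) ∈ H) {x : M} (hx : E x (π (Rn D io))) :
    ∃ A : Set ℕ, A.Infinite ∧ Obj.ex (.gs A) ∈ H ∧ x = π (cst D io A) := by
  obtain ⟨a, ha, rfl⟩ := s.m.surj x
  obtain ⟨d, hd, ht⟩ := s.h.meet' 1 [.nm a] (mem1 ha)
  rcases ht with ht | ⟨A, hA, ht⟩
  · exact (s.absurd' hd ((s.m.memi _ _ ha hRn).1 hx) ht).elim
  · obtain ⟨y, hy, A', rfl, hA', hle⟩ := s.op 8 (y := .ex (.gs A)) (mem2 hd.1 ha) ⟨A, rfl, hA, ht⟩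
    exact ⟨A', hA', hy, s.eqName ha (s.cstOut hy).1 hd hle⟩

theorem reap (hRn : Obj.nm (Rn D io) ∈ H) : ReapIn E (π (Rn D io)) := by
  constructor
  · intro x hx
    obtain ⟨A, hA, hAH, rfl⟩ := s.mem_Rn hRn hx
    exact ⟨A, hA, (s.cstOut hAH).2⟩
  · rintro S ⟨a, ha⟩
    obtain ⟨x, hx, rfl⟩ := s.m.surj a
    obtain ⟨S', hS'H, hS', hS'g, _⟩ := s.m.read s.h s.ing.a3 s.ing.pl.pf s.ing.pl.dec s.ing.hio hx ha
    obtain ⟨d, hd, ht⟩ := s.h.meet' 0 [.sf S'] (mem1 hS'H)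
    obtain ⟨A, hA⟩ := ht hS'
    obtain ⟨y, hy, A', rfl, hA'⟩ := s.op 7 (y := .ex (.gs A)) (mem2 hd.1 hS'H) ⟨A, rfl, hA⟩
    obtain ⟨h1, h2⟩ := s.cstOut hy
    refine ⟨_, A', ?_, h2, ?_⟩
    · exact s.mem_setN (A := fun A : {A : Set ℕ // A.Infinite} => cst D io A.1) (i := ⟨A', hA'.1⟩)
        hd h1 hRn
    · rcases hA'.2 with h3 | h3
      · right
        have h4 := h3 g hd.2
        rw [hS'g] at h4
        rw [Set.sdiff_eq_empty.2 h4]
        exact Set.finite_empty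
      · left
        have h4 := h3 g hd.2
        rw [hS'g] at h4
        rw [h4.inter_eq]
        exact Set.finite_empty

theorem notDom (hRn : Obj.nm (Rn D io) ∈ H) : ¬ DomLe E (π (Rn D io)) := by
  rintro ⟨G, hfun, hdom⟩
  obtain ⟨Gn, hGn, rfl⟩ := s.m.surj G
  -- the closure point
  have hND : ∃ γ, NDg D io p0 Gn γ := by
    have hmk : Cardinal.mk (Set ℕ) ≤ Cardinal.continuum := by simp
    obtain ⟨γ, hγ⟩ := s.ing.pl.ndom (Set ℕ) hmk (fun A d f => relG D io Gn A d f)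
      (fun i r r' f hr h => relG_mono s.ing.hio hr h) p0
      (by
        intro A r _
        by_cases hex : ∃ d ≤ r, ∃ f : PT → ℕ → ℕ, Measurable f ∧
            io d ≤ bmem (opair (cst D io A) (opF D io f)) Gn
        · obtain ⟨d, hd, f, hf, hle⟩ := hex
          exact ⟨d, hd, f, hf, Or.inl hle⟩
        · push Not at hex
          exact ⟨r, le_rfl, 0, measurable_const, Or.inr ⟨rfl, hex⟩⟩)
    refine ⟨γ, fun A r hr m => ?_⟩
    obtain ⟨r', hr', f, hf, hrel, hn⟩ := hγ A r hr m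
    exact ⟨r', hr', f, hf, hrel, hn⟩
  obtain ⟨γ0, hγ0⟩ := hND
  obtain ⟨y, hy, γ, rfl, hγ⟩ := s.op 9 (y := .ex (.kx γ0)) (mem1 hGn) ⟨γ0, rfl, hγ0⟩
  have hmil : Obj.ex (.ff (D.tt γ)) ∈ H := s.op' 38 (mem1 hy) rfl (fun _ h => h)
  obtain ⟨x, y', p, hx, hp, hpG, f', hf', m0, hm0⟩ := hdom _ (s.seqIn' hmil (s.ing.pl.mtt γ))
  obtain ⟨A, hA, hAH, rfl⟩ := s.mem_Rn hRn hx
  obtain ⟨yn, hyn, rfl⟩ := s.m.surj y'
  obtain ⟨F, hF, hFm, hFg, e1, he1, hle1⟩ := s.seqRead hyn hf'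
  obtain ⟨hc1, hc2⟩ := s.cstOut hAH
  obtain ⟨hF1, hF2⟩ := s.seqOut hF hFm
  have hyF : π yn = π (opF D io F) := s.eqName hyn hF1 he1 hle1
  obtain ⟨ho1, ho2⟩ := s.opairOut hc1 hF1
  rw [hyF] at hp
  have hpe := oPair_unique s.m.zfc hp ho2
  rw [hpe] at hpG
  obtain ⟨e2, he2, hle2⟩ := (s.memName ho1 hGn).1 hpG
  obtain ⟨d, hd, ht⟩ := s.h.meet' 2 [.nm Gn, .ex (.kx γ), .ex (.gs A), .nt m0]
    (memc hGn (mem3 hy hAH (s.h.nt_mem m0)))
  rcases ht hγ with ht | ⟨f0, hf0⟩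
  · exact ht hd.2 s.p0.2
  obtain ⟨y2, hy2, f, rfl, hfm, hrel, n, hn, hlt⟩ := s.op 11 (y := .ex (.ff f0))
    (memc hd.1 (memc hGn (mem3 hy hAH (s.h.nt_mem m0)))) ⟨f0, rfl, hf0⟩
  rcases hrel with hrel | ⟨_, hrel⟩
  · obtain ⟨hf1, hf2⟩ := s.seqOut hy2 hfm
    obtain ⟨ho3, ho4⟩ := s.opairOut hc1 hf1
    have h5 : E (π (opair (cst D io A) (opF D io f))) (π Gn) := (s.memName ho3 hGn).2 ⟨d, hd, hrel⟩
    have h6 := hfun _ _ _ _ _ hx ho4 h5 ho2 hpG
    rw [h6] at hf2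
    have h7 := gr_inj (s.m.codes_unique hf2 hF2)
    have h8 := hlt g hd.2
    have h9 := hm0 n hn
    rw [h7, hFg] at h8
    exact absurd (lt_of_lt_of_le h8 h9) (lt_irrefl _)
  · obtain ⟨e, he, h1, h2⟩ := s.h.cpt hd he2
    exact hrel e h1 F hFm ((s.ing.hio.mono _ _ h2).trans hle2)

end Sit

end

end Pool.Agent.MenG
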