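import Pool.Agent.Helper93_MEN.G4
import Pool.Agent.Helper93_MEN.PStmts

/-!
# Squad MEN: the final theorem for the product of the two iterations
-/

open MeasureTheory Set

namespace Pool.Agent.Men

open Pool.Agent.GF (IsPF)

theorem Cond.measurableSet_body' {D : Type} [MeasurableSpace D] [Alph D] {I : Type}
    [LinearOrder I] (p : Cond D I) : MeasurableSet p.body := by
  have : p.body = (⋂ i ∈ p.S, {y | y i ∈ Men.body D (p.T i y)}) := by
    ext y
    simp only [Set.mem_iInter, Set.mem_ofPred_eq]
    constructor
    · intro h i _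
      exact h i
    · intro h i
      by_cases hi : i ∈ p.S
      · exact h i hi
      · rw [p.full' i hi]
        simp
  rw [this]
  exact MeasurableSet.biInter p.scount fun i _ =>
    measurableSet_mem_body (measurable_pi_apply i) (p.meas i)

theorem isPF : IsPF rb where
  meas p := p.1.measurableSet_body'.prod p.2.measurableSet_body'
  ne p := p.1.body_nonempty.prod p.2.body_nonempty
  le_iff p q := by
    constructor
    · rintro ⟨h1, h2⟩
      exact Set.prod_mono h1 h2
    · intro h
      obtain ⟨y, hy⟩ := p.1.body_nonempty
      obtain ⟨x, hx⟩ := p.2.body_nonempty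
      exact ⟨fun y' hy' => (h (Set.mk_mem_prod hy' hx)).1,
        fun x' hx' => (h (Set.mk_mem_prod hy hx')).2⟩

/-- The full condition. -/
noncomputable def fullC (D : Type) [MeasurableSpace D] [Alph D] (I : Type) [LinearOrder I] :
    Cond D I where
  T := fun _ _ => Alph.full D
  S := ∅
  good := fun _ _ => Alph.good_full
  scount := Set.countable_empty
  full' := fun _ _ _ => rfl
  dep := fun _ _ _ _ => rfl
  meas := fun _ => measurable_const

/-- The data for the product. -/
noncomputable def famP : MenG.Fam PP RC XI YI Ix where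
  rb := rb
  xr := xr
  yr := yr
  tt := fun γ z => z.1 γ
  dm := fun b z => z.1 b

/-- The final theorem from the statements on conditions. -/
theorem final (hDec : DecStmt) (hBR : BRStmt) (hGpl : GplStmt) (hReap : ReapStmt)
    (hND : NDomStmt) (hDom : DomStmt) (hAdd : AddStmt) (hXY : MenXYStmt) (hNP : NProdStmt) :
    FinalStmt := by
  obtain ⟨hx, hy, hmx, hmy⟩ := hXY
  refine MenG.final famP ⟨⟨(fullC ℕ Ix, fullC (Fin 2) Ix)⟩, isPF, hDec, hBR, hGpl, hReap,
    fun γ => (measurable_pi_apply γ).comp measurable_fst, hND,
    fun γ => (measurable_pi_apply γ).comp measurable_fst, hDom, hAdd, hmx, hmy, hx, hy, hNP⟩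

end Pool.Agent.Men
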